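import Mathlib

/-!
Contact sets of sliding paraboloids for superharmonic type functions.
-/

open MeasureTheory Metric Set Filter Topology
open scoped ENNReal NNReal

namespace Pool.Agent.Lib.MP_725b87_an

section General

variable {F : Type*} [NormedAddCommGroup F] [InnerProductSpace ℝ F] [FiniteDimensional ℝ F]
  [MeasurableSpace F] [BorelSpace F] (μ : Measure F) [μ.IsAddHaarMeasure]

/-- Reflection in a point preserves integrals over balls centred at that point. -/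
lemma setLIntegral_reflect (x : F) (r : ℝ) (f : F → ℝ≥0∞) (hf : Measurable f) :
    ∫⁻ z in closedBall x r, f (x + x - z) ∂μ = ∫⁻ z in closedBall x r, f z ∂μ := by
  have hmp : MeasurePreserving (fun z : F => x + x - z) μ μ := by
    have h1 : MeasurePreserving (fun z : F => -z) μ μ := Measure.measurePreserving_neg μ
    have h2 : MeasurePreserving (fun z : F => (x + x) + z) μ μ := measurePreserving_add_left μ _
    have := h2.comp h1
    simpa [Function.comp_def, sub_eq_add_neg] using this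
  have := hmp.setLIntegral_comp_preimage (s := closedBall x r) measurableSet_closedBall hf
  rw [← this]
  have hpre : (fun z : F => x + x - z) ⁻¹' closedBall x r = closedBall x r := by
    ext z
    simp only [mem_preimage, mem_closedBall, dist_eq_norm]
    have : x + x - z - x = -(z - x) := by abel
    rw [this, norm_neg]
  rw [hpre]

/-- The average of `a |z - y|^2` over a ball centred at `x` is at most
`a |x - y|^2 + a ρ^2`. -/
lemma setLIntegral_sq_le (x y : F) {a ρ : ℝ} (ha : 0 ≤ a) (_hρ : 0 ≤ ρ) :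
    ∫⁻ z in closedBall x ρ, ENNReal.ofReal (a * ‖z - y‖ ^ 2) ∂μ ≤
      ENNReal.ofReal (a * ‖x - y‖ ^ 2 + a * ρ ^ 2) * μ (closedBall x ρ) := by
  set f : F → ℝ≥0∞ := fun z => ENNReal.ofReal (a * ‖z - y‖ ^ 2) with hf
  have hfm : Measurable f := by
    apply ENNReal.measurable_ofReal.comp
    exact (Continuous.measurable (by fun_prop))
  have h1 := setLIntegral_reflect μ x ρ f hfm
  have h2 : ∫⁻ z in closedBall x ρ, (f z + f (x + x - z)) ∂μ ≤
      ∫⁻ z in closedBall x ρ, 2 * ENNReal.ofReal (a * ‖x - y‖ ^ 2 + a * ρ ^ 2) ∂μ := by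
    apply setLIntegral_mono' measurableSet_closedBall
    intro z hz
    rw [mem_closedBall, dist_eq_norm] at hz
    simp only [hf]
    rw [← ENNReal.ofReal_add (by positivity) (by positivity)]
    have h2' : (2 : ℝ≥0∞) = ENNReal.ofReal 2 := by simp
    rw [h2', ← ENNReal.ofReal_mul (by norm_num)]
    apply ENNReal.ofReal_le_ofReal
    have hpar := parallelogram_law_with_norm ℝ (x - y) (z - x)
    have e1 : x - y + (z - x) = z - y := by abel
    have e2 : x - y - (z - x) = x + x - z - y := by abel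
    rw [e1, e2] at hpar
    have hzz : ‖z - x‖ ^ 2 ≤ ρ ^ 2 := by
      apply pow_le_pow_left₀ (norm_nonneg _) hz
    nlinarith [hpar, hzz, ha]
  rw [lintegral_add_left hfm, h1, setLIntegral_const] at h2
  have h3 : 2 * ∫⁻ z in closedBall x ρ, f z ∂μ ≤
      2 * (ENNReal.ofReal (a * ‖x - y‖ ^ 2 + a * ρ ^ 2) * μ (closedBall x ρ)) := by
    calc 2 * ∫⁻ z in closedBall x ρ, f z ∂μ
        = ∫⁻ z in closedBall x ρ, f z ∂μ + ∫⁻ z in closedBall x ρ, f z ∂μ := by ring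
      _ ≤ _ := h2
      _ = _ := by ring
  exact (ENNReal.mul_le_mul_iff_right (by norm_num) (by norm_num)).1 h3

/-- Localising an average bound from a ball to a subset. -/
lemma setLIntegral_sub_le {s t : Set F} (hs : MeasurableSet s) (ht : MeasurableSet t) (hst : s ⊆ t)
    (htf : μ t ≠ ∞) {g : F → ℝ≥0∞} {m τ : ℝ≥0∞} (hm : m ≠ ∞) (hg : ∀ z ∈ t, m ≤ g z)
    (hint : ∫⁻ z in t, g z ∂μ ≤ (m + τ) * μ t) :
    ∫⁻ z in s, g z ∂μ ≤ m * μ s + τ * μ t := by
  have h1 : ∫⁻ z in t, g z ∂μ = ∫⁻ z in s, g z ∂μ + ∫⁻ z in t \ s, g z ∂μ := by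
    rw [← lintegral_inter_add_sdiff g t hs, inter_eq_self_of_subset_right hst]
  have h2 : m * μ (t \ s) ≤ ∫⁻ z in t \ s, g z ∂μ := by
    rw [← setLIntegral_const]
    exact setLIntegral_mono' (ht.diff hs) (fun z hz => hg z hz.1)
  have h3 : μ t = μ s + μ (t \ s) := by
    rw [← measure_inter_add_sdiff t hs, inter_eq_self_of_subset_right hst]
  have hfin : m * μ (t \ s) ≠ ∞ :=
    ENNReal.mul_ne_top hm (ne_top_of_le_ne_top htf (measure_mono sdiff_subset))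
  have h4 : ∫⁻ z in s, g z ∂μ + m * μ (t \ s) ≤ (m * μ s + τ * μ t) + m * μ (t \ s) := by
    calc ∫⁻ z in s, g z ∂μ + m * μ (t \ s)
        ≤ ∫⁻ z in s, g z ∂μ + ∫⁻ z in t \ s, g z ∂μ := by gcongr
      _ = ∫⁻ z in t, g z ∂μ := h1.symm
      _ ≤ (m + τ) * μ t := hint
      _ = m * μ t + τ * μ t := by ring
      _ = (m * μ s + τ * μ t) + m * μ (t \ s) := by
          conv_lhs => rw [h3]
          rw [h3]; ring
  exact (ENNReal.add_le_add_iff_right hfin).1 h4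

/-- Two functions with average bounds have a common good point. -/
lemma exists_good_point {s : Set F} (hs : MeasurableSet s) (hsf : μ s ≠ ∞)
    {g₁ g₂ : F → ℝ≥0∞} (hg₁ : Measurable g₁) {m₁ m₂ T β : ℝ≥0∞} (hm₁ : m₁ ≠ ∞) (hm₂ : m₂ ≠ ∞)
    (h1 : ∫⁻ z in s, g₁ z ∂μ ≤ m₁ * μ s + β) (h2 : ∫⁻ z in s, g₂ z ∂μ ≤ m₂ * μ s + β)
    (hT : β + β < T * μ s) :
    ∃ z ∈ s, g₁ z + g₂ z ≤ m₁ + m₂ + T := by
  by_contra hcon
  push Not at hcon
  have h3 : (m₁ + m₂ + T) * μ s ≤ ∫⁻ z in s, (g₁ z + g₂ z) ∂μ := by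
    rw [← setLIntegral_const]
    exact setLIntegral_mono' hs (fun z hz => (hcon z hz).le)
  rw [lintegral_add_left hg₁] at h3
  have h4 : (m₁ * μ s + m₂ * μ s) + T * μ s ≤ (m₁ * μ s + m₂ * μ s) + (β + β) := by
    calc (m₁ * μ s + m₂ * μ s) + T * μ s = (m₁ + m₂ + T) * μ s := by ring
      _ ≤ _ := h3
      _ ≤ (m₁ * μ s + β) + (m₂ * μ s + β) := by gcongr
      _ = _ := by ring
  have hfin : m₁ * μ s + m₂ * μ s ≠ ∞ :=
    ENNReal.add_ne_top.2 ⟨ENNReal.mul_ne_top hm₁ hsf, ENNReal.mul_ne_top hm₂ hsf⟩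
  have h5 := (ENNReal.add_le_add_iff_left hfin).1 h4
  exact absurd hT (not_lt.2 h5)

/-- Lower semicontinuous `[0,∞]`-valued functions, infinite off `K`, satisfying the super mean
value inequality on closed balls inside `K`. -/
structure SuperMean (v : F → ℝ≥0∞) (K : Set F) : Prop where
  lsc : LowerSemicontinuous v
  top_off : ∀ z, z ∉ K → v z = ∞
  mean : ∀ x ρ, 0 < ρ → closedBall x ρ ⊆ K →
    ∫⁻ z in closedBall x ρ, v z ∂μ ≤ v x * μ (closedBall x ρ)

/-- `x` is a contact point of `v` with the paraboloid of opening `a` and vertex `y`. -/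
def IsContact (v : F → ℝ≥0∞) (a : ℝ) (x y : F) : Prop :=
  v x ≠ ∞ ∧ ∀ z, v x + ENNReal.ofReal (a * ‖x - y‖ ^ 2) ≤ v z + ENNReal.ofReal (a * ‖z - y‖ ^ 2)

variable {μ}

lemma contact_ball_bound {v : F → ℝ≥0∞} {K : Set F} (hv : SuperMean μ v K) {a ρ : ℝ} (ha : 0 < a)
    (hρ : 0 < ρ) {x : F} (y : F) (hK : closedBall x ρ ⊆ K) :
    ∫⁻ z in closedBall x ρ, (v z + ENNReal.ofReal (a * ‖z - y‖ ^ 2)) ∂μ ≤
      ((v x + ENNReal.ofReal (a * ‖x - y‖ ^ 2)) + ENNReal.ofReal (a * ρ ^ 2)) *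
        μ (closedBall x ρ) := by
  rw [lintegral_add_left hv.lsc.measurable]
  calc _ ≤ v x * μ (closedBall x ρ) +
        ENNReal.ofReal (a * ‖x - y‖ ^ 2 + a * ρ ^ 2) * μ (closedBall x ρ) :=
        add_le_add (hv.mean x ρ hρ hK) (setLIntegral_sq_le μ x y ha.le hρ.le)
    _ = _ := by
        rw [ENNReal.ofReal_add (by positivity) (by positivity)]
        ring

/-- Existence of a point where both contact gaps are small. -/
lemma exists_both_small {v : F → ℝ≥0∞} {K : Set F} (hv : SuperMean μ v K) {a ρ : ℝ} (ha : 0 < a)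
    (hρ : 0 < ρ) {x₁ x₂ y₁ y₂ : F} (h₁ : IsContact v a x₁ y₁) (h₂ : IsContact v a x₂ y₂)
    (hK₁ : closedBall x₁ ρ ⊆ K) (hK₂ : closedBall x₂ ρ ⊆ K) {c : F}
    (hc₁ : closedBall c (ρ / 8) ⊆ closedBall x₁ ρ) (hc₂ : closedBall c (ρ / 8) ⊆ closedBall x₂ ρ) :
    ∃ z ∈ closedBall c (ρ / 8),
      |(a * ‖z - y₁‖ ^ 2 - a * ‖z - y₂‖ ^ 2) -
        (((v x₁).toReal + a * ‖x₁ - y₁‖ ^ 2) - ((v x₂).toReal + a * ‖x₂ - y₂‖ ^ 2))| ≤
        3 * 8 ^ (Module.finrank ℝ F) * (a * ρ ^ 2) := by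
  set N := Module.finrank ℝ F with hN
  set m₁ : ℝ≥0∞ := v x₁ + ENNReal.ofReal (a * ‖x₁ - y₁‖ ^ 2) with hm₁
  set m₂ : ℝ≥0∞ := v x₂ + ENNReal.ofReal (a * ‖x₂ - y₂‖ ^ 2) with hm₂
  have hm₁t : m₁ ≠ ∞ := ENNReal.add_ne_top.2 ⟨h₁.1, ENNReal.ofReal_ne_top⟩
  have hm₂t : m₂ ≠ ∞ := ENNReal.add_ne_top.2 ⟨h₂.1, ENNReal.ofReal_ne_top⟩
  set S := closedBall c (ρ / 8) with hS
  have hμeq₁ : μ (closedBall x₁ ρ) = ENNReal.ofReal (ρ ^ N) * μ (ball 0 1) :=
    Measure.addHaar_closedBall μ x₁ hρ.le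
  have hμeq₂ : μ (closedBall x₂ ρ) = ENNReal.ofReal (ρ ^ N) * μ (ball 0 1) :=
    Measure.addHaar_closedBall μ x₂ hρ.le
  have hμeqS : μ S = ENNReal.ofReal ((ρ / 8) ^ N) * μ (ball 0 1) :=
    Measure.addHaar_closedBall μ c (by positivity)
  have hball0 : μ (ball (0 : F) 1) ≠ 0 := (measure_ball_pos μ _ one_pos).ne'
  have hballt : μ (ball (0 : F) 1) ≠ ∞ := measure_ball_lt_top.ne
  have hSt : μ S ≠ ∞ := measure_closedBall_lt_top.ne
  set β : ℝ≥0∞ := ENNReal.ofReal (a * ρ ^ 2) * (ENNReal.ofReal (ρ ^ N) * μ (ball 0 1)) with hβ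
  have hmeas : ∀ y : F, Measurable (fun z => v z + ENNReal.ofReal (a * ‖z - y‖ ^ 2)) := by
    intro y
    apply hv.lsc.measurable.add
    exact ENNReal.measurable_ofReal.comp (Continuous.measurable (by fun_prop))
  have i1 : ∫⁻ z in S, (v z + ENNReal.ofReal (a * ‖z - y₁‖ ^ 2)) ∂μ ≤ m₁ * μ S + β := by
    have := setLIntegral_sub_le μ measurableSet_closedBall measurableSet_closedBall hc₁
      measure_closedBall_lt_top.ne hm₁t (fun z _ => h₁.2 z)
      (contact_ball_bound hv ha hρ y₁ hK₁)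
    rwa [hμeq₁] at this
  have i2 : ∫⁻ z in S, (v z + ENNReal.ofReal (a * ‖z - y₂‖ ^ 2)) ∂μ ≤ m₂ * μ S + β := by
    have := setLIntegral_sub_le μ measurableSet_closedBall measurableSet_closedBall hc₂
      measure_closedBall_lt_top.ne hm₂t (fun z _ => h₂.2 z)
      (contact_ball_bound hv ha hρ y₂ hK₂)
    rwa [hμeq₂] at this
  set T : ℝ := 3 * 8 ^ N * (a * ρ ^ 2) with hT
  have hT0 : 0 < T := by positivity
  have hβT : β + β < ENNReal.ofReal T * μ S := by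
    have e1 : ENNReal.ofReal T * μ S = ENNReal.ofReal (3 * (a * ρ ^ 2)) *
        (ENNReal.ofReal (ρ ^ N) * μ (ball 0 1)) := by
      rw [hμeqS, ← mul_assoc, ← mul_assoc, ← ENNReal.ofReal_mul hT0.le,
        ← ENNReal.ofReal_mul (by positivity)]
      congr 2
      rw [hT, div_pow]
      field_simp
    have e2 : β + β = ENNReal.ofReal (2 * (a * ρ ^ 2)) *
        (ENNReal.ofReal (ρ ^ N) * μ (ball 0 1)) := by
      rw [hβ, ENNReal.ofReal_mul (by norm_num : (0:ℝ) ≤ 2)]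
      simp only [ENNReal.ofReal_ofNat]
      ring
    rw [e1, e2]
    apply (ENNReal.mul_lt_mul_iff_left _ _).2
    · apply (ENNReal.ofReal_lt_ofReal_iff (by positivity)).2
      have : 0 < a * ρ ^ 2 := by positivity
      linarith
    · exact mul_ne_zero (by simpa using (pow_pos hρ N)) hball0
    · exact ENNReal.mul_ne_top ENNReal.ofReal_ne_top hballt
  obtain ⟨z, hzS, hz⟩ := exists_good_point μ measurableSet_closedBall hSt (hmeas y₁) hm₁t hm₂t
    i1 i2 hβT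
  refine ⟨z, hzS, ?_⟩
  have hzt : v z ≠ ∞ := by
    intro htop
    rw [htop] at hz
    simp only [top_add, top_le_iff] at hz
    exact (ENNReal.add_ne_top.2 ⟨ENNReal.add_ne_top.2 ⟨hm₁t, hm₂t⟩, ENNReal.ofReal_ne_top⟩) hz
  have r1 := (ENNReal.toReal_le_toReal hm₁t
    (ENNReal.add_ne_top.2 ⟨hzt, ENNReal.ofReal_ne_top⟩)).2 (h₁.2 z)
  have r2 := (ENNReal.toReal_le_toReal hm₂t
    (ENNReal.add_ne_top.2 ⟨hzt, ENNReal.ofReal_ne_top⟩)).2 (h₂.2 z)
  have r3 := (ENNReal.toReal_le_toReal (ENNReal.add_ne_top.2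
    ⟨ENNReal.add_ne_top.2 ⟨hzt, ENNReal.ofReal_ne_top⟩,
      ENNReal.add_ne_top.2 ⟨hzt, ENNReal.ofReal_ne_top⟩⟩)
    (ENNReal.add_ne_top.2 ⟨ENNReal.add_ne_top.2 ⟨hm₁t, hm₂t⟩, ENNReal.ofReal_ne_top⟩)).2 hz
  rw [ENNReal.toReal_add (ENNReal.add_ne_top.2 ⟨hzt, ENNReal.ofReal_ne_top⟩)
    (ENNReal.add_ne_top.2 ⟨hzt, ENNReal.ofReal_ne_top⟩),
    ENNReal.toReal_add (ENNReal.add_ne_top.2 ⟨hm₁t, hm₂t⟩) ENNReal.ofReal_ne_top,
    ENNReal.toReal_add hm₁t hm₂t] at r3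
  simp only [hm₁, hm₂] at r1 r2 r3
  rw [ENNReal.toReal_add h₁.1 ENNReal.ofReal_ne_top, ENNReal.toReal_add hzt ENNReal.ofReal_ne_top,
    ENNReal.toReal_ofReal (by positivity), ENNReal.toReal_ofReal (by positivity)] at r1
  rw [ENNReal.toReal_add h₂.1 ENNReal.ofReal_ne_top, ENNReal.toReal_add hzt ENNReal.ofReal_ne_top,
    ENNReal.toReal_ofReal (by positivity), ENNReal.toReal_ofReal (by positivity)] at r2
  rw [ENNReal.toReal_add h₁.1 ENNReal.ofReal_ne_top, ENNReal.toReal_add h₂.1 ENNReal.ofReal_ne_top,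
    ENNReal.toReal_add hzt ENNReal.ofReal_ne_top, ENNReal.toReal_add hzt ENNReal.ofReal_ne_top,
    ENNReal.toReal_ofReal (by positivity), ENNReal.toReal_ofReal (by positivity),
    ENNReal.toReal_ofReal (by positivity), ENNReal.toReal_ofReal (by positivity),
    ENNReal.toReal_ofReal hT0.le] at r3
  rw [abs_le]
  constructor <;> linarith

/-- The contact point determines the vertex, with a Lipschitz bound. -/
lemma contact_vertex_bound {v : F → ℝ≥0∞} {K : Set F} (hv : SuperMean μ v K) {a ρ : ℝ} (ha : 0 < a)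
    (hρ : 0 < ρ) {x₁ x₂ y₁ y₂ : F} (h₁ : IsContact v a x₁ y₁) (h₂ : IsContact v a x₂ y₂)
    (hK₁ : closedBall x₁ ρ ⊆ K) (hK₂ : closedBall x₂ ρ ⊆ K) (hx : ‖x₁ - x₂‖ ≤ ρ) :
    ‖y₁ - y₂‖ ≤ 12 * 8 ^ (Module.finrank ℝ F) * ρ := by
  set N := Module.finrank ℝ F with hN
  by_cases hp : y₁ = y₂
  · rw [hp, sub_self, norm_zero]; positivity
  have hp' : 0 < ‖y₁ - y₂‖ := norm_pos_iff.2 (sub_ne_zero.2 hp)
  set p := y₁ - y₂ with hpdef
  set e : F := (‖p‖)⁻¹ • p with he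
  have hen : ‖e‖ = 1 := by
    rw [he, norm_smul, norm_inv, norm_norm, inv_mul_cancel₀ hp'.ne']
  have hep : inner ℝ e p = ‖p‖ := by
    rw [he, real_inner_smul_left, real_inner_self_eq_norm_sq]
    field_simp
  set mid : F := (1 / 2 : ℝ) • (x₁ + x₂) with hmid
  have hmid1 : ‖mid - x₁‖ ≤ ρ / 2 := by
    have : mid - x₁ = (-(1 / 2 : ℝ)) • (x₁ - x₂) := by
      rw [hmid]; module
    rw [this, norm_smul]
    simp only [norm_neg, Real.norm_eq_abs]
    rw [abs_of_pos (by norm_num)]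
    linarith
  have hmid2 : ‖mid - x₂‖ ≤ ρ / 2 := by
    have : mid - x₂ = ((1 / 2 : ℝ)) • (x₁ - x₂) := by
      rw [hmid]; module
    rw [this, norm_smul]
    simp only [Real.norm_eq_abs]
    rw [abs_of_pos (by norm_num)]
    linarith
  have hsub : ∀ (t : ℝ) (x : F), |t| = 1 → ‖mid - x‖ ≤ ρ / 2 →
      closedBall (mid + (t * (ρ / 4)) • e) (ρ / 8) ⊆ closedBall x ρ := by
    intro t x ht hmx
    apply closedBall_subset_closedBall'
    rw [dist_eq_norm]
    have h1 : mid + (t * (ρ / 4)) • e - x = (mid - x) + (t * (ρ / 4)) • e := by abel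
    have h2 : ‖(t * (ρ / 4)) • e‖ = ρ / 4 := by
      rw [norm_smul, hen, Real.norm_eq_abs, abs_mul, ht, abs_of_pos (by positivity : 0 < ρ / 4)]
      ring
    rw [h1]
    have := norm_add_le (mid - x) ((t * (ρ / 4)) • e)
    linarith
  obtain ⟨z, hz, hzb⟩ := exists_both_small hv ha hρ h₁ h₂ hK₁ hK₂
    (hsub 1 x₁ (by norm_num) hmid1) (hsub 1 x₂ (by norm_num) hmid2)
  obtain ⟨w, hw, hwb⟩ := exists_both_small hv ha hρ h₁ h₂ hK₁ hK₂
    (hsub (-1) x₁ (by norm_num) hmid1) (hsub (-1) x₂ (by norm_num) hmid2)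
  rw [mem_closedBall, dist_eq_norm] at hz hw
  set T : ℝ := 3 * 8 ^ N * (a * ρ ^ 2) with hT
  have key : ∀ z : F, ‖z - y₁‖ ^ 2 - ‖z - y₂‖ ^ 2 =
      - 2 * inner ℝ z p + (‖y₁‖ ^ 2 - ‖y₂‖ ^ 2) := by
    intro z
    rw [norm_sub_sq_real, norm_sub_sq_real, hpdef, inner_sub_right]
    ring
  have kz := key z
  have kw := key w
  have hzw : ρ / 4 * ‖p‖ ≤ inner ℝ z p - inner ℝ w p := by
    have e1 : z = (mid + (1 * (ρ / 4)) • e) + (z - (mid + (1 * (ρ / 4)) • e)) := by abel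
    have e2 : w = (mid + (-1 * (ρ / 4)) • e) + (w - (mid + (-1 * (ρ / 4)) • e)) := by abel
    have f1 : inner ℝ z p = inner ℝ mid p + (ρ / 4) * ‖p‖ +
        inner ℝ (z - (mid + (1 * (ρ / 4)) • e)) p := by
      conv_lhs => rw [e1]
      rw [inner_add_left, inner_add_left, real_inner_smul_left e, hep]
      ring
    have f2 : inner ℝ w p = inner ℝ mid p - (ρ / 4) * ‖p‖ +
        inner ℝ (w - (mid + (-1 * (ρ / 4)) • e)) p := by
      conv_lhs => rw [e2]
      rw [inner_add_left, inner_add_left, real_inner_smul_left e, hep]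
      ring
    have g1 := abs_real_inner_le_norm (z - (mid + (1 * (ρ / 4)) • e)) p
    have g2 := abs_real_inner_le_norm (w - (mid + (-1 * (ρ / 4)) • e)) p
    have g1' : ‖z - (mid + (1 * (ρ / 4)) • e)‖ * ‖p‖ ≤ ρ / 8 * ‖p‖ := by gcongr
    have g2' : ‖w - (mid + (-1 * (ρ / 4)) • e)‖ * ‖p‖ ≤ ρ / 8 * ‖p‖ := by gcongr
    have g1'' := (abs_le.1 (g1.trans g1')).1
    have g2'' := (abs_le.1 (g2.trans g2')).2
    rw [f1, f2]
    linarith
  have hzb' := (abs_le.1 hzb).1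
  have hwb' := (abs_le.1 hwb).2
  have s1 : a * ‖z - y₁‖ ^ 2 - a * ‖z - y₂‖ ^ 2 =
      a * (- 2 * inner ℝ z p + (‖y₁‖ ^ 2 - ‖y₂‖ ^ 2)) := by rw [← kz]; ring
  have s2 : a * ‖w - y₁‖ ^ 2 - a * ‖w - y₂‖ ^ 2 =
      a * (- 2 * inner ℝ w p + (‖y₁‖ ^ 2 - ‖y₂‖ ^ 2)) := by rw [← kw]; ring
  rw [s1] at hzb'
  rw [s2] at hwb'
  have hfin : 2 * a * (inner ℝ z p - inner ℝ w p) ≤ 2 * T := by nlinarith
  have hfin2 : 2 * a * (ρ / 4 * ‖p‖) ≤ 2 * T := by
    refine le_trans ?_ hfin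
    gcongr
  have hfin3 : (a * ρ / 2) * ‖p‖ ≤ (a * ρ / 2) * (12 * 8 ^ N * ρ) := by
    rw [hT] at hfin2
    nlinarith
  exact le_of_mul_le_mul_left hfin3 (by positivity)

/-- Lipschitz dependence of the vertex on the contact point, for contact points away from the
boundary of the ball. -/
lemma contact_lipschitz {v : F → ℝ≥0∞} {x₀ : F} {R : ℝ} (hR : 0 < R)
    (hv : SuperMean μ v (closedBall x₀ R)) {a : ℝ} (ha : 0 < a) {x₁ x₂ y₁ y₂ : F}
    (h₁ : IsContact v a x₁ y₁) (h₂ : IsContact v a x₂ y₂)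
    (hx₁ : x₁ ∈ closedBall x₀ (7 * R / 8)) (hx₂ : x₂ ∈ closedBall x₀ (7 * R / 8))
    (hy₁ : y₁ ∈ closedBall x₀ (R / 4)) (hy₂ : y₂ ∈ closedBall x₀ (R / 4)) :
    ‖y₁ - y₂‖ ≤ 12 * 8 ^ (Module.finrank ℝ F) * ‖x₁ - x₂‖ := by
  rw [mem_closedBall, dist_eq_norm] at hx₁ hx₂ hy₁ hy₂
  have hC : (1 : ℝ) ≤ 8 ^ (Module.finrank ℝ F) := one_le_pow₀ (by norm_num)
  by_cases hd : ‖x₁ - x₂‖ ≤ R / 8
  · have hsub : ∀ ρ, ρ ≤ R / 8 → ∀ x : F, ‖x - x₀‖ ≤ 7 * R / 8 →
        closedBall x ρ ⊆ closedBall x₀ R := by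
      intro ρ hρ x hx
      apply closedBall_subset_closedBall'
      rw [dist_eq_norm]; linarith
    rcases (norm_nonneg (x₁ - x₂)).eq_or_lt with h0 | h0
    · rw [← h0, mul_zero]
      apply le_of_forall_pos_le_add
      intro ε hε
      set C : ℝ := 12 * 8 ^ (Module.finrank ℝ F) with hCdef
      have hC0 : 0 < C := by positivity
      have hρ0 : 0 < min (R / 8) (ε / C) := lt_min (by positivity) (by positivity)
      have := contact_vertex_bound hv ha hρ0 h₁ h₂ (hsub _ (min_le_left _ _) x₁ hx₁)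
        (hsub _ (min_le_left _ _) x₂ hx₂) (by rw [← h0]; exact hρ0.le)
      calc ‖y₁ - y₂‖ ≤ C * min (R / 8) (ε / C) := this
        _ ≤ C * (ε / C) := by gcongr; exact min_le_right _ _
        _ = 0 + ε := by field_simp; ring
    · exact contact_vertex_bound hv ha h0 h₁ h₂ (hsub _ hd x₁ hx₁) (hsub _ hd x₂ hx₂) le_rfl
  · push Not at hd
    have : ‖y₁ - y₂‖ ≤ R / 2 := by
      have e : y₁ - y₂ = (y₁ - x₀) - (y₂ - x₀) := by abel
      rw [e]
      have := norm_sub_le (y₁ - x₀) (y₂ - x₀)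
      linarith
    have h12 : 12 * (R / 8) ≤ 12 * 8 ^ (Module.finrank ℝ F) * ‖x₁ - x₂‖ := by
      calc 12 * (R / 8) ≤ 12 * ‖x₁ - x₂‖ := by gcongr
        _ = 12 * 1 * ‖x₁ - x₂‖ := by ring
        _ ≤ _ := by gcongr
    linarith

/-- For large opening every vertex in the quarter ball has an interior contact point. -/
lemma exists_contact {v : F → ℝ≥0∞} {x₀ : F} {R : ℝ} (hR : 0 < R)
    (hv : SuperMean μ v (closedBall x₀ R)) {a : ℝ} (ha : 0 < a) {x₁ : F}
    (hx₁ : x₁ ∈ closedBall x₀ (R / 4)) (hvx₁ : v x₁ ≠ ∞)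
    (haR : (v x₁).toReal ≤ a * (9 * R ^ 2 / 64)) {y : F} (hy : y ∈ closedBall x₀ (R / 4)) :
    ∃ x ∈ closedBall x₀ (7 * R / 8), IsContact v a x y := by
  set g : F → ℝ≥0∞ := fun z => v z + ENNReal.ofReal (a * ‖z - y‖ ^ 2) with hg
  have hglsc : LowerSemicontinuous g := by
    apply hv.lsc.add
    apply Continuous.lowerSemicontinuous
    exact ENNReal.continuous_ofReal.comp (by fun_prop)
  have hne : (closedBall x₀ R).Nonempty := ⟨x₀, mem_closedBall_self hR.le⟩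
  obtain ⟨x, hxK, hxmin⟩ := (hglsc.lowerSemicontinuousOn (closedBall x₀ R)).exists_isMinOn hne
    (isCompact_closedBall x₀ R)
  have hx₁K : x₁ ∈ closedBall x₀ R := closedBall_subset_closedBall (by linarith) hx₁
  have hle : g x ≤ g x₁ := hxmin hx₁K
  have hgx₁ : g x₁ ≠ ∞ := ENNReal.add_ne_top.2 ⟨hvx₁, ENNReal.ofReal_ne_top⟩
  have hvx : v x ≠ ∞ := by
    intro htop
    have : g x = ∞ := by simp [hg, htop]
    rw [this, top_le_iff] at hle
    exact hgx₁ hle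
  refine ⟨x, ?_, hvx, ?_⟩
  · have r := (ENNReal.toReal_le_toReal (ENNReal.add_ne_top.2 ⟨hvx, ENNReal.ofReal_ne_top⟩) hgx₁).2
      hle
    simp only [hg] at r
    rw [ENNReal.toReal_add hvx ENNReal.ofReal_ne_top, ENNReal.toReal_add hvx₁ ENNReal.ofReal_ne_top,
      ENNReal.toReal_ofReal (by positivity), ENNReal.toReal_ofReal (by positivity)] at r
    rw [mem_closedBall, dist_eq_norm] at hx₁ hy ⊢
    have h1 : ‖x₁ - y‖ ≤ R / 2 := by
      have e : x₁ - y = (x₁ - x₀) - (y - x₀) := by abel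
      rw [e]
      have := norm_sub_le (x₁ - x₀) (y - x₀)
      linarith
    have h1' : ‖x₁ - y‖ ^ 2 ≤ (R / 2) ^ 2 := pow_le_pow_left₀ (norm_nonneg _) h1 2
    have h2 : 0 ≤ (v x).toReal := ENNReal.toReal_nonneg
    have h3 : a * ‖x - y‖ ^ 2 ≤ a * (5 * R / 8) ^ 2 := by
      have : a * ‖x₁ - y‖ ^ 2 ≤ a * (R / 2) ^ 2 := by gcongr
      nlinarith
    have h4 : ‖x - y‖ ^ 2 ≤ (5 * R / 8) ^ 2 := le_of_mul_le_mul_left h3 ha
    have h5 : ‖x - y‖ ≤ 5 * R / 8 := by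
      apply le_of_sq_le_sq h4 (by positivity)
    have e : x - x₀ = (x - y) + (y - x₀) := by abel
    rw [e]
    have := norm_add_le (x - y) (y - x₀)
    linarith
  · intro z
    by_cases hz : z ∈ closedBall x₀ R
    · exact hxmin hz
    · rw [hv.top_off z hz]; simp

/-- The set of interior contact points. -/
def contactSet (v : F → ℝ≥0∞) (x₀ : F) (R a : ℝ) : Set F :=
  {x | x ∈ closedBall x₀ (7 * R / 8) ∧ ∃ y ∈ closedBall x₀ (R / 4), IsContact v a x y}

omit [MeasurableSpace F] [BorelSpace F] in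
lemma isCompact_contactSet {v : F → ℝ≥0∞} (hv : LowerSemicontinuous v) (x₀ : F) (R a : ℝ)
    {x₁ : F} (hvx₁ : v x₁ ≠ ∞) :
    IsCompact (contactSet v x₀ R a) := by
  set P : Set (F × F) := (closedBall x₀ (7 * R / 8) ×ˢ closedBall x₀ (R / 4)) ∩
    ⋂ z : F, {p : F × F | v p.1 + ENNReal.ofReal (a * ‖p.1 - p.2‖ ^ 2) ≤
      v z + ENNReal.ofReal (a * ‖z - p.2‖ ^ 2)} with hP
  have hclosed : IsClosed (⋂ z : F, {p : F × F | v p.1 + ENNReal.ofReal (a * ‖p.1 - p.2‖ ^ 2) ≤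
      v z + ENNReal.ofReal (a * ‖z - p.2‖ ^ 2)}) := by
    apply isClosed_iInter
    intro z
    have h1 : LowerSemicontinuous (fun p : F × F =>
        v p.1 + ENNReal.ofReal (a * ‖p.1 - p.2‖ ^ 2)) := by
      apply LowerSemicontinuous.add
      · exact LowerSemicontinuous.comp (f := v) hv continuous_fst
      · apply Continuous.lowerSemicontinuous
        exact ENNReal.continuous_ofReal.comp (by fun_prop)
    have h2 := h1.isClosed_epigraph
    have h3 : Continuous (fun p : F × F =>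
        (p, v z + ENNReal.ofReal (a * ‖z - p.2‖ ^ 2))) := by
      apply continuous_id.prodMk
      apply continuous_const.add
      exact ENNReal.continuous_ofReal.comp (by fun_prop)
    exact h2.preimage h3
  have hPc : IsCompact P :=
    ((isCompact_closedBall _ _).prod (isCompact_closedBall _ _)).inter_right hclosed
  have himg : contactSet v x₀ R a = Prod.fst '' P := by
    ext x
    constructor
    · rintro ⟨hx, y, hy, hc⟩
      exact ⟨(x, y), ⟨⟨hx, hy⟩, mem_iInter.2 fun z => hc.2 z⟩, rfl⟩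
    · rintro ⟨⟨x', y⟩, ⟨⟨hx, hy⟩, hc⟩, rfl⟩
      refine ⟨hx, y, hy, ?_, fun z => mem_iInter.1 hc z⟩
      have := mem_iInter.1 hc x₁
      simp only [mem_ofPred_eq] at this
      intro htop
      simp only at htop
      rw [htop, top_add, top_le_iff] at this
      exact (ENNReal.add_ne_top.2 ⟨hvx₁, ENNReal.ofReal_ne_top⟩) this
  rw [himg]
  exact hPc.image continuous_fst

variable (μ) in
/-- Lipschitz images: measure bound for Haar measures. -/
lemma measure_image_le_of_lipschitzOn {L : ℝ≥0} {f : F → F} {s : Set F}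
    (hf : LipschitzOnWith L f s) :
    μ (f '' s) ≤ (L : ℝ≥0∞) ^ (Module.finrank ℝ F) * μ s := by
  have : (μH[(Module.finrank ℝ F : ℝ)] : Measure F).IsAddHaarMeasure :=
    isAddHaarMeasure_hausdorffMeasure
  have h := hf.hausdorffMeasure_image_le (d := (Module.finrank ℝ F : ℝ)) (by positivity)
  have e := Measure.isAddLeftInvariant_eq_smul μ (μH[(Module.finrank ℝ F : ℝ)] : Measure F)
  rw [e]
  simp only [Measure.smul_apply, ENNReal.smul_def, smul_eq_mul]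
  rw [ENNReal.rpow_natCast] at h
  calc _ ≤ ((μ.addHaarScalarFactor μH[(Module.finrank ℝ F : ℝ)] : ℝ≥0) : ℝ≥0∞) *
        ((L : ℝ≥0∞) ^ (Module.finrank ℝ F) * μH[(Module.finrank ℝ F : ℝ)] s) := by gcongr
    _ = _ := by ring

/-- The contact set fills a fixed proportion of the ball. -/
lemma measure_contactSet {v : F → ℝ≥0∞} {x₀ : F} {R : ℝ} (hR : 0 < R)
    (hv : SuperMean μ v (closedBall x₀ R)) {a : ℝ} (ha : 0 < a) {x₁ : F}
    (hx₁ : x₁ ∈ closedBall x₀ (R / 4)) (hvx₁ : v x₁ ≠ ∞)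
    (haR : (v x₁).toReal ≤ a * (9 * R ^ 2 / 64)) :
    μ (closedBall x₀ (R / 4)) ≤
      ((12 * 8 ^ (Module.finrank ℝ F) : ℝ≥0) : ℝ≥0∞) ^ (Module.finrank ℝ F) *
        μ (contactSet v x₀ R a) := by
  classical
  set f : F → F := fun x => if h : ∃ y ∈ closedBall x₀ (R / 4), IsContact v a x y then h.choose
    else 0 with hf
  have hfspec : ∀ x ∈ contactSet v x₀ R a, f x ∈ closedBall x₀ (R / 4) ∧
      IsContact v a x (f x) := by
    intro x hx
    have h := hx.2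
    have : f x = h.choose := by simp only [hf]; rw [dif_pos h]
    rw [this]
    exact h.choose_spec
  have hLip : LipschitzOnWith (12 * 8 ^ (Module.finrank ℝ F) : ℝ≥0) f (contactSet v x₀ R a) := by
    apply LipschitzOnWith.of_dist_le_mul
    intro x hx x' hx'
    rw [dist_eq_norm, dist_eq_norm]
    have := contact_lipschitz hR hv ha (hfspec x hx).2 (hfspec x' hx').2 hx.1 hx'.1
      (hfspec x hx).1 (hfspec x' hx').1
    simpa using this
  have hsurj : closedBall x₀ (R / 4) ⊆ f '' (contactSet v x₀ R a) := by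
    intro y hy
    obtain ⟨x, hx, hc⟩ := exists_contact hR hv ha hx₁ hvx₁ haR hy
    have hxc : x ∈ contactSet v x₀ R a := ⟨hx, y, hy, hc⟩
    refine ⟨x, hxc, ?_⟩
    have := contact_lipschitz hR hv ha (hfspec x hxc).2 hc hx hx (hfspec x hxc).1 hy
    rw [sub_self, norm_zero, mul_zero] at this
    exact sub_eq_zero.1 (norm_le_zero_iff.1 this)
  exact (measure_mono hsurj).trans (measure_image_le_of_lipschitzOn μ hLip)

end General

end Pool.Agent.Lib.MP_725b87_an
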