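import Mathlib

/-!
Definitions for MP_725b87_an: plurisubharmonic functions, differential tests from above,
the exceptional set, pluripolar sets.
-/

open MeasureTheory Set
open scoped ENNReal Real

namespace Pool.Agent.Lib.MP_725b87_an

/-- The mean `(1/2π) ∫_0^{2π} u(θ) dθ` of an extended real valued function, computed as the mean
of the positive part minus the mean of the negative part (this is the usual Lebesgue integral with
value in `[-∞,∞]`, and is what is meant for functions bounded above). -/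
noncomputable def circleMean (u : ℝ → EReal) : EReal :=
  (((∫⁻ θ in Ioc 0 (2 * π), (u θ).toENNReal) / ENNReal.ofReal (2 * π) : ℝ≥0∞) : EReal) -
    (((∫⁻ θ in Ioc 0 (2 * π), (-(u θ)).toENNReal) / ENNReal.ofReal (2 * π) : ℝ≥0∞) : EReal)

/-- `φ` is plurisubharmonic on the open set `Ω` of `ℂ^n` (the function `⊥ = -∞` is allowed): it is
upper semicontinuous on `Ω` with values in `[-∞,∞)`, and for every closed affine disc
`{z + ζ w : |ζ| ≤ 1}` contained in `Ω` its value at the centre is at most its mean over the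
boundary circle. Values of `φ` off `Ω` play no role. -/
structure IsPSH {n : ℕ} (Ω : Set (EuclideanSpace ℂ (Fin n))) (φ : EuclideanSpace ℂ (Fin n) → EReal) :
    Prop where
  usc : UpperSemicontinuousOn φ Ω
  ne_top : ∀ z ∈ Ω, φ z ≠ ⊤
  le_circleMean : ∀ z w : EuclideanSpace ℂ (Fin n), (∀ ζ : ℂ, ‖ζ‖ ≤ 1 → z + ζ • w ∈ Ω) →
    φ z ≤ circleMean (fun θ => φ (z + Complex.exp (θ * Complex.I) • w))

/-- `φ` admits a differential test from above at `z`: there are an open neighbourhood `V ⊆ Ω` of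
`z` and a (real) `C²` function `q` on `V` with `(φ - q)(z) = sup_V (φ - q)`. -/
def HasUpperTest {n : ℕ} (Ω : Set (EuclideanSpace ℂ (Fin n)))
    (φ : EuclideanSpace ℂ (Fin n) → EReal) (z : EuclideanSpace ℂ (Fin n)) : Prop :=
  ∃ V : Set (EuclideanSpace ℂ (Fin n)), IsOpen V ∧ V ⊆ Ω ∧ z ∈ V ∧
    ∃ q : EuclideanSpace ℂ (Fin n) → ℝ, ContDiffOn ℝ 2 q V ∧
      φ z - (q z : EReal) = ⨆ w ∈ V, (φ w - (q w : EReal))

/-- The exceptional set `E(φ)`: the points of `Ω` where `φ` has no differential test from above. -/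
def exceptionalSet {n : ℕ} (Ω : Set (EuclideanSpace ℂ (Fin n)))
    (φ : EuclideanSpace ℂ (Fin n) → EReal) : Set (EuclideanSpace ℂ (Fin n)) :=
  {z | z ∈ Ω ∧ ¬ HasUpperTest Ω φ z}

/-- `E` is pluripolar in `Ω`: it is contained in `{u = -∞}` for some plurisubharmonic `u` on `Ω`
which is not identically `-∞`. -/
def IsPluripolarIn {n : ℕ} (Ω : Set (EuclideanSpace ℂ (Fin n)))
    (E : Set (EuclideanSpace ℂ (Fin n))) : Prop :=
  ∃ u : EuclideanSpace ℂ (Fin n) → EReal, IsPSH Ω u ∧ (∃ z ∈ Ω, u z ≠ ⊥) ∧ ∀ z ∈ E, u z = ⊥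

end Pool.Agent.Lib.MP_725b87_an
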