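import Pool.Agent.Lib.MP_725b87_an.Mean

/-!
The function `|Re (z_i - a_i)|`: plurisubharmonic, with exceptional set a real hyperplane, which is
not pluripolar.
-/

open MeasureTheory Metric Set Filter Topology
open scoped ENNReal NNReal Real

namespace Pool.Agent.Lib.MP_725b87_an

variable {n : ℕ}

lemma circleMean_mono {u u' : ℝ → EReal} (h : ∀ θ, u θ ≤ u' θ) : circleMean u ≤ circleMean u' := by
  unfold circleMean
  apply EReal.sub_le_sub
  · rw [EReal.coe_ennreal_le_coe_ennreal_iff]
    apply ENNReal.div_le_div_right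
    exact lintegral_mono (fun θ => EReal.toENNReal_le_toENNReal (h θ))
  · rw [EReal.coe_ennreal_le_coe_ennreal_iff]
    apply ENNReal.div_le_div_right
    exact lintegral_mono (fun θ => EReal.toENNReal_le_toENNReal (EReal.neg_le_neg_iff.2 (h θ)))

lemma circleMean_coe {g : ℝ → ℝ} (hg : Continuous g) :
    circleMean (fun θ => (g θ : EReal)) = (((∫ θ in (0 : ℝ)..(2 * π), g θ) / (2 * π) : ℝ) : EReal) := by
  have h2π : 0 < 2 * π := by positivity
  have hint : Integrable g (volume.restrict (Ioc 0 (2 * π))) :=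
    (hg.integrableOn_Icc.mono_set Ioc_subset_Icc_self)
  have h1 := integral_eq_lintegral_pos_part_sub_lintegral_neg_part hint
  have hP : ∫⁻ θ in Ioc 0 (2 * π), ENNReal.ofReal (g θ) ≠ ∞ := by
    exact (hint.lintegral_lt_top).ne
  have hQ : ∫⁻ θ in Ioc 0 (2 * π), ENNReal.ofReal (-(g θ)) ≠ ∞ := by
    exact (hint.neg.lintegral_lt_top).ne
  unfold circleMean
  have e1 : ∀ θ : ℝ, ((g θ : EReal)).toENNReal = ENNReal.ofReal (g θ) := fun θ =>
    EReal.real_coe_toENNReal _
  have e2 : ∀ θ : ℝ, (-(g θ : EReal)).toENNReal = ENNReal.ofReal (-(g θ)) := fun θ => by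
    rw [← EReal.coe_neg, EReal.real_coe_toENNReal]
  simp_rw [e1, e2]
  set P := ∫⁻ θ in Ioc 0 (2 * π), ENNReal.ofReal (g θ) with hPdef
  set Q := ∫⁻ θ in Ioc 0 (2 * π), ENNReal.ofReal (-(g θ)) with hQdef
  rw [intervalIntegral.integral_of_le h2π.le, h1]
  have f1 : P / ENNReal.ofReal (2 * π) = ENNReal.ofReal (P.toReal / (2 * π)) := by
    rw [ENNReal.ofReal_div_of_pos h2π, ENNReal.ofReal_toReal hP]
  have f2 : Q / ENNReal.ofReal (2 * π) = ENNReal.ofReal (Q.toReal / (2 * π)) := by
    rw [ENNReal.ofReal_div_of_pos h2π, ENNReal.ofReal_toReal hQ]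
  rw [f1, f2, EReal.coe_ennreal_ofReal, EReal.coe_ennreal_ofReal,
      max_eq_left (by positivity), max_eq_left (by positivity), ← EReal.coe_sub, sub_div]

lemma re_exp_mul (θ : ℝ) (c : ℂ) :
    (Complex.exp (θ * Complex.I) * c).re = Real.cos θ * c.re - Real.sin θ * c.im := by
  rw [Complex.mul_re, Complex.exp_ofReal_mul_I_re, Complex.exp_ofReal_mul_I_im]

lemma im_exp_mul (θ : ℝ) (c : ℂ) :
    (Complex.exp (θ * Complex.I) * c).im = Real.cos θ * c.im + Real.sin θ * c.re := by
  rw [Complex.mul_im, Complex.exp_ofReal_mul_I_re, Complex.exp_ofReal_mul_I_im]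

/-- The model function `|Re (z_i - a_i)|`. -/
noncomputable def kink (i : Fin n) (a : EuclideanSpace ℂ (Fin n)) :
    EuclideanSpace ℂ (Fin n) → EReal := fun z => ((|(z i - a i).re| : ℝ) : EReal)

lemma isPSH_kink (Ω : Set (EuclideanSpace ℂ (Fin n))) (i : Fin n)
    (a : EuclideanSpace ℂ (Fin n)) : IsPSH Ω (kink i a) where
  usc := by
    apply UpperSemicontinuous.upperSemicontinuousOn
    apply Continuous.upperSemicontinuous
    apply continuous_coe_real_ereal.comp
    apply Continuous.abs
    exact Complex.continuous_re.comp (by fun_prop)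
  ne_top z _ := EReal.coe_ne_top _
  le_circleMean z w _ := by
    have h2π : 0 < 2 * π := by positivity
    set c : ℝ := (z i - a i).re with hc
    have e1 : (fun θ : ℝ => kink i a (z + Complex.exp (θ * Complex.I) • w)) =
        fun θ : ℝ => ((|c + (Real.cos θ * (w i).re - Real.sin θ * (w i).im)| : ℝ) : EReal) := by
      funext θ
      unfold kink
      congr 2
      have : (z + Complex.exp (θ * Complex.I) • w) i - a i =
          (z i - a i) + Complex.exp (θ * Complex.I) * w i := by
        simp; ring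
      rw [this, Complex.add_re, re_exp_mul]
    rw [e1, circleMean_coe (by fun_prop)]
    have hk : kink i a z = ((|c| : ℝ) : EReal) := rfl
    rw [hk]
    have hreal : |c| ≤ (∫ θ in (0 : ℝ)..(2 * π),
        |c + (Real.cos θ * (w i).re - Real.sin θ * (w i).im)|) / (2 * π) := by
      rw [le_div_iff₀ h2π]
      have e2 : ∫ θ in (0 : ℝ)..(2 * π), (c + (Real.cos θ * (w i).re - Real.sin θ * (w i).im)) =
          c * (2 * π) := by
        rw [intervalIntegral.integral_add (by simp)
          (Continuous.intervalIntegrable (by fun_prop) _ _),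
          intervalIntegral.integral_sub (Continuous.intervalIntegrable (by fun_prop) _ _)
          (Continuous.intervalIntegrable (by fun_prop) _ _),
          intervalIntegral.integral_mul_const, intervalIntegral.integral_mul_const]
        simp [integral_cos, integral_sin]
        ring
      have e3 := intervalIntegral.abs_integral_le_integral_abs (μ := volume) h2π.le
        (f := fun θ : ℝ => c + (Real.cos θ * (w i).re - Real.sin θ * (w i).im))
      rw [e2, abs_mul, abs_of_pos h2π] at e3
      exact e3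
    exact_mod_cast hreal

/-- A point shifted in the `i`-th coordinate. -/
noncomputable def shift (i : Fin n) (z : EuclideanSpace ℂ (Fin n)) (ζ : ℂ) :
    EuclideanSpace ℂ (Fin n) := z + ζ • EuclideanSpace.single i (1 : ℂ)

lemma shift_apply_self (i : Fin n) (z : EuclideanSpace ℂ (Fin n)) (ζ : ℂ) :
    shift i z ζ i = z i + ζ := by
  simp [shift]

lemma norm_shift_sub (i : Fin n) (z : EuclideanSpace ℂ (Fin n)) (ζ : ℂ) :
    ‖shift i z ζ - z‖ = ‖ζ‖ := by
  have : shift i z ζ - z = ζ • EuclideanSpace.single i (1 : ℂ) := by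
    simp [shift]
  rw [this, norm_smul]
  simp

lemma continuous_shift (i : Fin n) (z : EuclideanSpace ℂ (Fin n)) : Continuous (shift i z) := by
  unfold shift
  fun_prop

lemma shift_add (i : Fin n) (z : EuclideanSpace ℂ (Fin n)) (ζ ξ : ℂ) :
    shift i (shift i z ζ) ξ = shift i z (ζ + ξ) := by
  unfold shift
  rw [add_smul]
  abel

/-- The barrier polynomial `s² - y² + 2x² - 6sx`. -/
def barrier (s : ℝ) (ζ : ℂ) : ℝ := s ^ 2 - ζ.im ^ 2 + 2 * ζ.re ^ 2 - 6 * s * ζ.re

lemma continuous_barrier (s : ℝ) : Continuous (barrier s) := by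
  unfold barrier
  have h1 := Complex.continuous_re
  have h2 := Complex.continuous_im
  fun_prop

lemma barrier_mean (s : ℝ) (p : ℂ) (ρ : ℝ) :
    ∫ θ in (0 : ℝ)..(2 * π), barrier s (p + Complex.exp (θ * Complex.I) * ρ) =
      (barrier s p + ρ ^ 2 / 2) * (2 * π) := by
  have e : ∀ θ : ℝ, barrier s (p + Complex.exp (θ * Complex.I) * ρ) =
      (barrier s p - ρ ^ 2) + ((4 * p.re - 6 * s) * ρ) * Real.cos θ +
        (- 2 * p.im * ρ) * Real.sin θ + (3 * ρ ^ 2) * (Real.cos θ ^ 2) := by
    intro θ
    have hs := Real.sin_sq_add_cos_sq θ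
    unfold barrier
    rw [Complex.add_re, Complex.add_im, re_exp_mul, im_exp_mul]
    simp only [Complex.ofReal_re, Complex.ofReal_im, mul_zero, sub_zero, zero_add]
    have hs' : Real.sin θ ^ 2 = 1 - Real.cos θ ^ 2 := by linarith
    ring_nf
    rw [hs']
    ring
  simp_rw [e]
  rw [intervalIntegral.integral_add (Continuous.intervalIntegrable (by fun_prop) _ _)
      (Continuous.intervalIntegrable (by fun_prop) _ _),
    intervalIntegral.integral_add (Continuous.intervalIntegrable (by fun_prop) _ _)
      (Continuous.intervalIntegrable (by fun_prop) _ _),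
    intervalIntegral.integral_add (Continuous.intervalIntegrable (by fun_prop) _ _)
      (Continuous.intervalIntegrable (by fun_prop) _ _),
    intervalIntegral.integral_const_mul, intervalIntegral.integral_const_mul,
    intervalIntegral.integral_const_mul, integral_cos, integral_sin, integral_cos_sq]
  simp
  ring

/-- Key step: if `u` is plurisubharmonic near `closedBall a R` and equals `-∞` on the real
hyperplane through `a`, then it equals `-∞` at the points just to the right of it. -/
lemma eq_bot_of_right {Ω : Set (EuclideanSpace ℂ (Fin n))}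
    {u : EuclideanSpace ℂ (Fin n) → EReal} (hu : IsPSH Ω u) {i : Fin n}
    {a : EuclideanSpace ℂ (Fin n)} {s : ℝ} (hs : 0 < s) (hKΩ : closedBall a (4 * s) ⊆ Ω)
    (hbot : ∀ z ∈ closedBall a (4 * s), (z i).re = (a i).re → u z = ⊥)
    {z : EuclideanSpace ℂ (Fin n)} (hz : z ∈ closedBall a s) (h0 : 0 < (z i - a i).re)
    (h1 : (z i - a i).re ≤ s / 8) : u z = ⊥ := by
  obtain ⟨M, hM, hMu⟩ := exists_upper_bound hu (by positivity) hKΩ
  set t : ℝ := (z i - a i).re with ht
  rw [mem_closedBall, dist_eq_norm] at hz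
  -- the slice
  set Z : ℂ → EuclideanSpace ℂ (Fin n) := fun ζ => shift i z (ζ - t) with hZ
  have hZcont : Continuous Z := (continuous_shift i z).comp (continuous_id.sub continuous_const)
  have hZt : Z t = z := by simp [hZ, shift]
  have hZmem : ∀ ζ : ℂ, ‖ζ‖ ≤ 2 * s → Z ζ ∈ closedBall a (4 * s) := by
    intro ζ hζ
    rw [mem_closedBall, dist_eq_norm]
    have e : Z ζ - a = (Z ζ - z) + (z - a) := by abel
    rw [e]
    have h2 : ‖Z ζ - z‖ = ‖ζ - t‖ := norm_shift_sub i z _
    have h3 : ‖ζ - t‖ ≤ ‖ζ‖ + ‖(t : ℂ)‖ := norm_sub_le _ _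
    have h4 : ‖(t : ℂ)‖ = t := by
      rw [Complex.norm_real, Real.norm_eq_abs, abs_of_pos h0]
    have h5 := norm_add_le (Z ζ - z) (z - a)
    rw [h2] at h5
    rw [h4] at h3
    linarith
  have hZre : ∀ ζ : ℂ, ((Z ζ) i).re = (a i).re + ζ.re := by
    intro ζ
    simp only [hZ]
    rw [shift_apply_self]
    simp only [Complex.add_re, Complex.sub_re, Complex.ofReal_re]
    have : t = (z i).re - (a i).re := by rw [ht, Complex.sub_re]
    rw [this]; ring
  -- the compact region
  set D : Set ℂ := {ζ | 0 ≤ ζ.re ∧ ζ.re ≤ s ∧ 0 ≤ barrier s ζ} with hD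
  have hDim : ∀ ζ ∈ D, |ζ.im| ≤ s := by
    rintro ζ ⟨hζ0, hζ1, hζ2⟩
    unfold barrier at hζ2
    apply abs_le_of_sq_le_sq _ hs.le
    nlinarith
  have hDnorm : ∀ ζ ∈ D, ‖ζ‖ ≤ 2 * s := by
    intro ζ hζ
    have h2 := Complex.norm_le_abs_re_add_abs_im ζ
    have h3 := hDim ζ hζ
    have h4 : |ζ.re| ≤ s := by rw [abs_of_nonneg hζ.1]; exact hζ.2.1
    linarith
  have hDclosed : IsClosed D := by
    apply (isClosed_le continuous_const Complex.continuous_re).inter
    apply (isClosed_le Complex.continuous_re continuous_const).inter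
    exact isClosed_le continuous_const (continuous_barrier s)
  have hDcompact : IsCompact D := by
    apply (isCompact_closedBall (0 : ℂ) (2 * s)).of_isClosed_subset hDclosed
    intro ζ hζ
    rw [mem_closedBall, dist_zero_right]
    exact hDnorm ζ hζ
  have htD : (t : ℂ) ∈ D := by
    refine ⟨by simpa using h0.le, by simp; linarith, ?_⟩
    unfold barrier
    simp
    nlinarith
  have hbt : 0 < barrier s t := by
    unfold barrier
    simp
    nlinarith
  -- main claim
  have claim : ∀ C : ℝ, 0 < C → u z + ((C * barrier s t : ℝ) : EReal) ≤ (M : EReal) := by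
    intro C hC
    set f : ℂ → EReal := fun ζ => u (Z ζ) + ((C * barrier s ζ : ℝ) : EReal) with hf
    have hfusc : UpperSemicontinuousOn f D := by
      have hu1 : UpperSemicontinuousOn (u ∘ Z) D :=
        (hu.usc.mono hKΩ).comp hZcont.continuousOn (fun ζ hζ => hZmem ζ (hDnorm ζ hζ))
      have hu2 : UpperSemicontinuousOn (fun ζ => ((C * barrier s ζ : ℝ) : EReal)) D := by
        apply UpperSemicontinuous.upperSemicontinuousOn
        apply Continuous.upperSemicontinuous
        exact continuous_coe_real_ereal.comp (continuous_const.mul (continuous_barrier s))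
      apply UpperSemicontinuousOn.add' hu1 hu2
      intro ζ _
      apply EReal.continuousAt_add
      · right; exact EReal.coe_ne_bot _
      · right; exact EReal.coe_ne_top _
    obtain ⟨p, hpD, hpmax⟩ := hfusc.exists_isMaxOn ⟨_, htD⟩ hDcompact
    have hfp : f p ≤ (M : EReal) := by
      by_contra hcon
      push Not at hcon
      have hZpK : Z p ∈ closedBall a (4 * s) := hZmem p (hDnorm p hpD)
      have hUtop : u (Z p) ≠ ⊤ := hu.ne_top _ (hKΩ hZpK)
      have hUbot : u (Z p) ≠ ⊥ := by
        intro hb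
        have : f p = ⊥ := by simp [hf, hb]
        rw [this] at hcon
        exact absurd hcon (not_lt_bot)
      obtain ⟨r, hr⟩ : ∃ r : ℝ, u (Z p) = (r : EReal) := by
        lift u (Z p) to ℝ using ⟨hUtop, hUbot⟩ with r hr
        exact ⟨r, rfl⟩
      have hrM : r ≤ M := by
        have := hMu _ hZpK
        rw [hr] at this
        exact_mod_cast this
      have hfp' : f p = ((r + C * barrier s p : ℝ) : EReal) := by
        simp only [hf]; rw [hr]; push_cast; rfl
      have hre : 0 < p.re := by
        rcases hpD.1.eq_or_lt with h | h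
        · exfalso
          apply hUbot
          apply hbot _ hZpK
          rw [hZre, ← h, add_zero]
        · exact h
      have hbar : 0 < barrier s p := by
        rcases hpD.2.2.eq_or_lt with h | h
        · exfalso
          rw [hfp', ← h, mul_zero, add_zero] at hcon
          have : M < r := by exact_mod_cast hcon
          linarith
        · exact h
      have hres : p.re < s := by
        rcases hpD.2.1.eq_or_lt with h | h
        · exfalso
          unfold barrier at hbar
          rw [h] at hbar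
          nlinarith [sq_nonneg p.im]
        · exact h
      have hopen : IsOpen {ζ : ℂ | 0 < ζ.re ∧ ζ.re < s ∧ 0 < barrier s ζ} := by
        apply (isOpen_lt continuous_const Complex.continuous_re).inter
        apply (isOpen_lt Complex.continuous_re continuous_const).inter
        exact isOpen_lt continuous_const (continuous_barrier s)
      obtain ⟨ρ, hρ, hρD⟩ := nhds_basis_closedBall.mem_iff.1 (hopen.mem_nhds ⟨hre, hres, hbar⟩)
      have hρD' : ∀ ζ : ℂ, ‖ζ‖ ≤ 1 → p + ζ * ρ ∈ D := by
        intro ζ hζ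
        have : p + ζ * ρ ∈ closedBall p ρ := by
          rw [mem_closedBall, dist_eq_norm]
          have : p + ζ * ρ - p = ζ * ρ := by ring
          rw [this, norm_mul, Complex.norm_real, Real.norm_eq_abs, abs_of_pos hρ]
          calc ‖ζ‖ * ρ ≤ 1 * ρ := by gcongr
            _ = ρ := one_mul ρ
        have := hρD this
        exact ⟨this.1.le, this.2.1.le, this.2.2.le⟩
      have hdisc : ∀ ζ : ℂ, Z p + ζ • ((ρ : ℂ) • EuclideanSpace.single i (1 : ℂ)) =
          Z (p + ζ * ρ) := by
        intro ζ
        simp only [hZ, shift]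
        rw [add_assoc, ← mul_smul, ← add_smul]
        congr 2
        ring
      have hmean := hu.le_circleMean (Z p) ((ρ : ℂ) • EuclideanSpace.single i (1 : ℂ))
        (fun ζ hζ => by rw [hdisc]; exact hKΩ (hZmem _ (hDnorm _ (hρD' ζ hζ))))
      simp_rw [hdisc] at hmean
      have hle : ∀ θ : ℝ, u (Z (p + Complex.exp (θ * Complex.I) * ρ)) ≤
          (((r + C * barrier s p) - C * barrier s (p + Complex.exp (θ * Complex.I) * ρ) : ℝ) :
            EReal) := by
        intro θ
        have hin : p + Complex.exp (θ * Complex.I) * ρ ∈ D :=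
          hρD' _ (by rw [Complex.norm_exp_ofReal_mul_I])
        have h2 : f (p + Complex.exp (θ * Complex.I) * ρ) ≤ f p := hpmax hin
        rw [hfp'] at h2
        simp only [hf] at h2
        rw [EReal.coe_sub]
        exact (EReal.le_sub_iff_add_le (Or.inl (EReal.coe_ne_bot _))
          (Or.inl (EReal.coe_ne_top _))).2 h2
      have hmean2 := hmean.trans (circleMean_mono hle)
      have hcontg : Continuous (fun θ : ℝ => (r + C * barrier s p) -
          C * barrier s (p + Complex.exp (θ * Complex.I) * ρ)) := by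
        apply continuous_const.sub
        apply continuous_const.mul
        exact (continuous_barrier s).comp (by fun_prop)
      rw [circleMean_coe hcontg, hr] at hmean2
      have hmean3 : r ≤ (∫ θ in (0 : ℝ)..(2 * π), ((r + C * barrier s p) -
          C * barrier s (p + Complex.exp (θ * Complex.I) * ρ))) / (2 * π) := by
        exact_mod_cast hmean2
      have h2π : 0 < 2 * π := by positivity
      have hci : IntervalIntegrable (fun θ : ℝ =>
          C * barrier s (p + Complex.exp (θ * Complex.I) * ρ)) volume 0 (2 * π) := by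
        apply Continuous.intervalIntegrable
        apply continuous_const.mul
        exact (continuous_barrier s).comp (by fun_prop)
      rw [intervalIntegral.integral_sub (by simp) hci,
        intervalIntegral.integral_const_mul, barrier_mean, le_div_iff₀ h2π] at hmean3
      simp at hmean3
      have : 0 < C * (ρ ^ 2 / 2) * (2 * π) := by positivity
      nlinarith
    have h3 : f t ≤ f p := hpmax htD
    have h4 : f t = u z + ((C * barrier s t : ℝ) : EReal) := by
      simp only [hf]; rw [hZt]
    rw [← h4]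
    exact h3.trans hfp
  by_contra hne
  have hzK : z ∈ closedBall a (4 * s) := by
    rw [mem_closedBall, dist_eq_norm]; linarith
  have htop := hu.ne_top z (hKΩ hzK)
  obtain ⟨r, hr⟩ : ∃ r : ℝ, u z = (r : EReal) := by
    lift u z to ℝ using ⟨htop, hne⟩ with r hr
    exact ⟨r, rfl⟩
  have hC := claim (max 1 ((M - r + 1) / barrier s t)) (by positivity)
  rw [hr] at hC
  have hC' : r + max 1 ((M - r + 1) / barrier s t) * barrier s t ≤ M := by exact_mod_cast hC
  have h5 : (M - r + 1) / barrier s t * barrier s t ≤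
      max 1 ((M - r + 1) / barrier s t) * barrier s t := by
    gcongr
    exact le_max_right _ _
  rw [div_mul_cancel₀ _ hbt.ne'] at h5
  linarith

/-- The kink function has no differential test from above on the hyperplane. -/
lemma not_hasUpperTest_kink {Ω : Set (EuclideanSpace ℂ (Fin n))} {i : Fin n}
    {a z : EuclideanSpace ℂ (Fin n)} (hz : (z i).re = (a i).re) :
    ¬ HasUpperTest Ω (kink i a) z := by
  rintro ⟨V, hVo, hVΩ, hzV, q, hq, hsup⟩
  have hkz : kink i a z = ((0 : ℝ) : EReal) := by
    unfold kink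
    rw [Complex.sub_re, hz, sub_self, abs_zero]
  set ℓ : ℝ → EuclideanSpace ℂ (Fin n) := fun t => shift i z (t : ℂ) with hℓ
  have hℓ0 : ℓ 0 = z := by simp [hℓ, shift]
  have hℓc : Continuous ℓ := (continuous_shift i z).comp Complex.continuous_ofReal
  have hℓd : DifferentiableAt ℝ ℓ 0 := by
    simp only [hℓ]
    unfold shift
    have h1 : DifferentiableAt ℝ (fun t : ℝ => (t : ℂ)) 0 :=
      Complex.ofRealCLM.differentiableAt
    exact (h1.smul_const _).const_add z
  have hkink : ∀ t : ℝ, kink i a (ℓ t) = ((|t| : ℝ) : EReal) := by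
    intro t
    unfold kink
    simp only [hℓ]
    rw [shift_apply_self]
    congr 2
    simp only [Complex.sub_re, Complex.add_re, Complex.ofReal_re, hz]
    ring
  have hineq : ∀ᶠ t in 𝓝 (0 : ℝ), |t| ≤ q (ℓ t) - q z := by
    have hmem : ∀ᶠ t in 𝓝 (0 : ℝ), ℓ t ∈ V := by
      apply hℓc.continuousAt.eventually_mem
      rw [hℓ0]
      exact hVo.mem_nhds hzV
    filter_upwards [hmem] with t ht
    have h1 : kink i a (ℓ t) - (q (ℓ t) : EReal) ≤ kink i a z - (q z : EReal) := by
      rw [hsup]
      exact le_iSup₂_of_le (ℓ t) ht le_rfl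
    rw [hkz, hkink, ← EReal.coe_sub, ← EReal.coe_sub] at h1
    have h2 : |t| - q (ℓ t) ≤ 0 - q z := by exact_mod_cast h1
    linarith
  have hqd : DifferentiableAt ℝ q z := by
    have := hq.contDiffAt (hVo.mem_nhds hzV)
    exact this.differentiableAt (by norm_num)
  have hgd : DifferentiableAt ℝ (fun t => q (ℓ t) - q z) 0 := by
    apply DifferentiableAt.sub_const
    have : DifferentiableAt ℝ q (ℓ 0) := by rw [hℓ0]; exact hqd
    exact this.comp 0 hℓd
  have hder := hgd.hasDerivAt
  set g : ℝ → ℝ := fun t => q (ℓ t) - q z with hg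
  have hg0 : g 0 = 0 := by simp [hg, hℓ0]
  have hmin : IsLocalMin g 0 := by
    filter_upwards [hineq] with t ht
    rw [hg0]
    exact (abs_nonneg t).trans ht
  have hd0 : deriv g 0 = 0 := hmin.deriv_eq_zero
  rw [hd0] at hder
  have hlo := hder.isLittleO
  have hlo2 := hlo.def (show (0 : ℝ) < 1 / 2 by norm_num)
  simp only [hg0, sub_zero, smul_zero] at hlo2
  have hev : ∀ᶠ t in 𝓝 (0 : ℝ), |t| ≤ 1 / 2 * |t| := by
    filter_upwards [hineq, hlo2] with t h1 h2
    have h3 : |t| ≤ |g t| := h1.trans (le_abs_self _)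
    exact h3.trans h2
  obtain ⟨ε, hε, hball⟩ := Metric.eventually_nhds_iff.1 hev
  have := hball (y := ε / 2) (by
    rw [dist_zero_right, Real.norm_eq_abs, abs_of_pos (by positivity)]; linarith)
  rw [abs_of_pos (by positivity)] at this
  linarith

/-- Off the hyperplane the kink function is smooth. -/
lemma hasUpperTest_kink {Ω : Set (EuclideanSpace ℂ (Fin n))} (hΩ : IsOpen Ω) {i : Fin n}
    {a z : EuclideanSpace ℂ (Fin n)} (hzΩ : z ∈ Ω) (hz : (z i).re ≠ (a i).re) :
    HasUpperTest Ω (kink i a) z := by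
  have hcont : Continuous (fun w : EuclideanSpace ℂ (Fin n) => (w i - a i).re) :=
    Complex.continuous_re.comp (by fun_prop)
  have hcd : ContDiff ℝ 2 (fun w : EuclideanSpace ℂ (Fin n) => (w i - a i).re) := by
    have h1 : ContDiff ℝ 2 (fun w : EuclideanSpace ℂ (Fin n) => w i) := by
      exact (EuclideanSpace.proj (𝕜 := ℂ) i : EuclideanSpace ℂ (Fin n) →L[ℂ] ℂ).contDiff.restrict_scalars ℝ
    exact Complex.reCLM.contDiff.comp (h1.sub contDiff_const)
  have hne : (z i - a i).re ≠ 0 := by rw [Complex.sub_re]; exact sub_ne_zero.2 hz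
  rcases lt_or_gt_of_ne hne with h | h
  · refine ⟨Ω ∩ {w | (w i - a i).re < 0}, hΩ.inter (isOpen_lt hcont continuous_const),
      inter_subset_left, ⟨hzΩ, h⟩, fun w => -(w i - a i).re, hcd.neg.contDiffOn, ?_⟩
    have hzero : ∀ w ∈ Ω ∩ {w : EuclideanSpace ℂ (Fin n) | (w i - a i).re < 0},
        kink i a w - ((-(w i - a i).re : ℝ) : EReal) = 0 := by
      intro w hw
      unfold kink
      rw [abs_of_neg hw.2, ← EReal.coe_sub, sub_self, EReal.coe_zero]
    apply le_antisymm
    · exact le_iSup₂_of_le z ⟨hzΩ, h⟩ le_rfl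
    · apply iSup₂_le
      intro w hw
      rw [hzero w hw, hzero z ⟨hzΩ, h⟩]
  · refine ⟨Ω ∩ {w | 0 < (w i - a i).re}, hΩ.inter (isOpen_lt continuous_const hcont),
      inter_subset_left, ⟨hzΩ, h⟩, fun w => (w i - a i).re, hcd.contDiffOn, ?_⟩
    have hzero : ∀ w ∈ Ω ∩ {w : EuclideanSpace ℂ (Fin n) | 0 < (w i - a i).re},
        kink i a w - (((w i - a i).re : ℝ) : EReal) = 0 := by
      intro w hw
      unfold kink
      rw [abs_of_pos hw.2, ← EReal.coe_sub, sub_self, EReal.coe_zero]
    apply le_antisymm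
    · exact le_iSup₂_of_le z ⟨hzΩ, h⟩ le_rfl
    · apply iSup₂_le
      intro w hw
      rw [hzero w hw, hzero z ⟨hzΩ, h⟩]

lemma exceptionalSet_kink {Ω : Set (EuclideanSpace ℂ (Fin n))} (hΩ : IsOpen Ω) (i : Fin n)
    (a : EuclideanSpace ℂ (Fin n)) :
    exceptionalSet Ω (kink i a) = {z | z ∈ Ω ∧ (z i).re = (a i).re} := by
  ext z
  constructor
  · rintro ⟨hz, hnot⟩
    refine ⟨hz, ?_⟩
    by_contra hne
    exact hnot (hasUpperTest_kink hΩ hz hne)
  · rintro ⟨hz, he⟩
    exact ⟨hz, not_hasUpperTest_kink he⟩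

/-- A real hyperplane through a point of a domain is not pluripolar in the domain. -/
theorem not_isPluripolarIn_hyperplane {Ω : Set (EuclideanSpace ℂ (Fin n))} (hΩ : IsOpen Ω)
    (hc : IsPreconnected Ω) (i : Fin n) {a : EuclideanSpace ℂ (Fin n)} (ha : a ∈ Ω) :
    ¬ IsPluripolarIn Ω {z | z ∈ Ω ∧ (z i).re = (a i).re} := by
  rintro ⟨u, hu, hne, hE⟩
  obtain ⟨R, hR, hRΩ⟩ := nhds_basis_closedBall.mem_iff.1 (hΩ.mem_nhds ha)
  set s := R / 4 with hs
  have hs0 : 0 < s := by positivity
  have hR4 : closedBall a (4 * s) ⊆ Ω := by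
    have : 4 * s = R := by rw [hs]; ring
    rw [this]; exact hRΩ
  -- centre of a small ball to the right of the hyperplane
  set x : EuclideanSpace ℂ (Fin n) := shift i a ((s / 16 : ℝ) : ℂ) with hx
  have hxa : ‖x - a‖ = s / 16 := by
    rw [hx, norm_shift_sub, Complex.norm_real, Real.norm_eq_abs, abs_of_pos (by positivity)]
  have hxi : (x i - a i).re = s / 16 := by
    rw [hx, shift_apply_self]; simp
  have hxΩ : x ∈ Ω := by
    apply hR4
    rw [mem_closedBall, dist_eq_norm, hxa]; linarith
  obtain ⟨z, hz, hzΩ, hznb⟩ := exists_ne_bot hΩ hc hu hne hxΩ (r := s / 32) (by positivity)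
  apply hznb
  rw [mem_closedBall, dist_eq_norm] at hz
  have hzi : |(z i - x i).re| ≤ s / 32 := by
    have h1 : |(z i - x i).re| ≤ ‖z i - x i‖ := Complex.abs_re_le_norm _
    have h2 : ‖z i - x i‖ ≤ ‖z - x‖ := by
      have := PiLp.norm_apply_le (z - x) i
      simpa using this
    linarith
  have e : (z i - a i).re = (z i - x i).re + (x i - a i).re := by
    simp only [Complex.sub_re]; ring
  have hb := abs_le.1 hzi
  apply eq_bot_of_right hu hs0 hR4 (i := i)
  · intro w hw hwi
    exact hE w ⟨hR4 hw, hwi⟩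
  · rw [mem_closedBall, dist_eq_norm]
    have e2 : z - a = (z - x) + (x - a) := by abel
    rw [e2]
    have := norm_add_le (z - x) (x - a)
    linarith
  · rw [e, hxi]; linarith [hb.1]
  · rw [e, hxi]; linarith [hb.2]

end Pool.Agent.Lib.MP_725b87_an
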