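import Pool.Agent.Lib.MP_725b87_an.Defs
import Pool.Agent.Lib.MP_725b87_an.Contact

/-!
From disc means to ball means.
-/

open MeasureTheory Metric Set Filter Topology
open scoped ENNReal NNReal Real

namespace Pool.Agent.Lib.MP_725b87_an

variable {n : ℕ}

lemma ereal_sub_continuous (M : ℝ) : Continuous (fun t : EReal => (M : EReal) - t) := by
  have h : (fun t : EReal => (M : EReal) - t) =
      (fun p : EReal × EReal => p.1 + p.2) ∘ (fun t : EReal => ((M : EReal), -t)) := by
    funext t; simp [sub_eq_add_neg]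
  rw [h, continuous_iff_continuousAt]
  intro t
  apply ContinuousAt.comp
  · apply EReal.continuousAt_add
    · left; exact EReal.coe_ne_top M
    · left; exact EReal.coe_ne_bot M
  · exact (continuous_const.prodMk continuous_neg).continuousAt

/-- The function `M - φ` on a closed set `K`, infinite off `K`. -/
noncomputable def flipFun (K : Set (EuclideanSpace ℂ (Fin n))) (M : ℝ)
    (φ : EuclideanSpace ℂ (Fin n) → EReal) : EuclideanSpace ℂ (Fin n) → ℝ≥0∞ :=
  open Classical in fun z => if z ∈ K then ((M : EReal) - φ z).toENNReal else ∞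

lemma flipFun_of_mem {K : Set (EuclideanSpace ℂ (Fin n))} {M : ℝ}
    {φ : EuclideanSpace ℂ (Fin n) → EReal} {z : EuclideanSpace ℂ (Fin n)} (hz : z ∈ K) :
    flipFun K M φ z = ((M : EReal) - φ z).toENNReal := by
  simp [flipFun, hz]

lemma flipFun_of_not_mem {K : Set (EuclideanSpace ℂ (Fin n))} {M : ℝ}
    {φ : EuclideanSpace ℂ (Fin n) → EReal} {z : EuclideanSpace ℂ (Fin n)} (hz : z ∉ K) :
    flipFun K M φ z = ∞ := by
  simp [flipFun, hz]

lemma flipFun_lsc {K : Set (EuclideanSpace ℂ (Fin n))} (hK : IsClosed K) {M : ℝ}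
    {φ : EuclideanSpace ℂ (Fin n) → EReal} (hφ : UpperSemicontinuousOn φ K) :
    LowerSemicontinuous (flipFun K M φ) := by
  have h1 : LowerSemicontinuousOn ((fun t : EReal => ((M : EReal) - t).toENNReal) ∘ φ) K := by
    apply Continuous.comp_upperSemicontinuousOn_antitone _ hφ
    · intro s t hst
      apply EReal.toENNReal_le_toENNReal
      exact EReal.sub_le_sub le_rfl hst
    · exact EReal.continuous_toENNReal.comp (ereal_sub_continuous M)
  intro z c hc
  by_cases hz : z ∈ K
  · rw [flipFun_of_mem hz] at hc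
    have := h1 z hz c hc
    rw [eventually_nhdsWithin_iff] at this
    filter_upwards [this] with w hw
    by_cases hwK : w ∈ K
    · rw [flipFun_of_mem hwK]; exact hw hwK
    · rw [flipFun_of_not_mem hwK]; exact lt_top_of_lt hc
  · filter_upwards [hK.isOpen_compl.mem_nhds hz] with w hw
    rw [flipFun_of_not_mem hw]
    rw [flipFun_of_not_mem hz] at hc
    exact hc

/-- Pointwise identity `(M - t)^+ + t^+ = M + t^-` for `t ≤ M`, `0 ≤ M`. -/
lemma toENNReal_identity {M : ℝ} (hM : 0 ≤ M) {t : EReal} (ht : t ≤ M) :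
    ((M : EReal) - t).toENNReal + t.toENNReal = ENNReal.ofReal M + (-t).toENNReal := by
  induction t with
  | bot => simp
  | top => simp at ht
  | coe r =>
    have hr : r ≤ M := by exact_mod_cast ht
    have e1 : ((M : EReal) - (r : EReal)).toENNReal = ENNReal.ofReal (M - r) := by
      rw [← EReal.coe_sub, EReal.real_coe_toENNReal]
    have e2 : ((r : EReal)).toENNReal = ENNReal.ofReal r := by simp
    have e3 : (-(r : EReal)).toENNReal = ENNReal.ofReal (-r) := by
      rw [← EReal.coe_neg]; simp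
    rw [e1, e2, e3]
    rcases le_total 0 r with h | h
    · rw [ENNReal.ofReal_of_nonpos (by linarith : -r ≤ 0), add_zero,
        ← ENNReal.ofReal_add (by linarith) h]
      congr 1; ring
    · rw [ENNReal.ofReal_of_nonpos h, add_zero, ← ENNReal.ofReal_add hM (by linarith)]
      congr 1

/-- Disc form: the mean of `M - φ` over a circle is at most its value at the centre. -/
lemma disc_mean {Ω K : Set (EuclideanSpace ℂ (Fin n))} {φ : EuclideanSpace ℂ (Fin n) → EReal}
    (hφ : IsPSH Ω φ) (hK : IsClosed K) (hKΩ : K ⊆ Ω) {M : ℝ} (hM : 0 ≤ M) (hMφ : ∀ z ∈ K, φ z ≤ M)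
    (z w : EuclideanSpace ℂ (Fin n)) (hd : ∀ ζ : ℂ, ‖ζ‖ ≤ 1 → z + ζ • w ∈ K) :
    ∫⁻ θ in Ioc 0 (2 * π), flipFun K M φ (z + Complex.exp (θ * Complex.I) • w) ≤
      flipFun K M φ z * ENNReal.ofReal (2 * π) := by
  have hlsc := flipFun_lsc hK (M := M) (hφ.usc.mono hKΩ)
  have hcont : Continuous (fun θ : ℝ => z + Complex.exp (θ * Complex.I) • w) := by fun_prop
  have hmem : ∀ θ : ℝ, z + Complex.exp (θ * Complex.I) • w ∈ K := by
    intro θ
    apply hd
    rw [Complex.norm_exp_ofReal_mul_I]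
  have hzK : z ∈ K := by simpa using hd 0 (by simp)
  have hVm : Measurable (fun θ : ℝ => flipFun K M φ (z + Complex.exp (θ * Complex.I) • w)) :=
    hlsc.measurable.comp hcont.measurable
  set U : ℝ → EReal := fun θ => φ (z + Complex.exp (θ * Complex.I) • w) with hU
  have hUm : Measurable U := by
    have : UpperSemicontinuous U := by
      have h1 : UpperSemicontinuousOn (φ ∘ fun θ : ℝ => z + Complex.exp (θ * Complex.I) • w)
          univ := (hφ.usc.mono hKΩ).comp hcont.continuousOn (fun θ _ => hmem θ)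
      rwa [upperSemicontinuousOn_univ_iff] at h1
    exact this.measurable
  have hid : ∀ θ : ℝ, flipFun K M φ (z + Complex.exp (θ * Complex.I) • w) + (U θ).toENNReal =
      ENNReal.ofReal M + (-(U θ)).toENNReal := by
    intro θ
    rw [flipFun_of_mem (hmem θ)]
    exact toENNReal_identity hM (hMφ _ (hmem θ))
  have hint : (∫⁻ θ in Ioc 0 (2 * π), flipFun K M φ (z + Complex.exp (θ * Complex.I) • w)) +
      ∫⁻ θ in Ioc 0 (2 * π), (U θ).toENNReal =
      ENNReal.ofReal M * ENNReal.ofReal (2 * π) + ∫⁻ θ in Ioc 0 (2 * π), (-(U θ)).toENNReal := by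
    rw [← lintegral_add_left hVm]
    simp_rw [hid]
    rw [lintegral_add_left measurable_const]
    simp
  have hmain := hφ.le_circleMean z w (fun ζ hζ => hKΩ (hd ζ hζ))
  have h2π : 0 < 2 * π := by positivity
  by_cases hbot : φ z = ⊥
  · rw [flipFun_of_mem hzK, hbot]
    have : ((M : EReal) - ⊥).toENNReal = ∞ := by simp
    rw [this, ENNReal.top_mul]
    · exact le_top
    · simpa using Real.pi_pos
  have htop : φ z ≠ ⊤ := hφ.ne_top z (hKΩ hzK)
  set P : ℝ≥0∞ := ∫⁻ θ in Ioc 0 (2 * π), (U θ).toENNReal with hP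
  set Q : ℝ≥0∞ := ∫⁻ θ in Ioc 0 (2 * π), (-(U θ)).toENNReal with hQ
  set I : ℝ≥0∞ := ∫⁻ θ in Ioc 0 (2 * π), flipFun K M φ (z + Complex.exp (θ * Complex.I) • w) with hI
  have hPfin : P ≠ ∞ := by
    have : P ≤ ∫⁻ θ in Ioc 0 (2 * π), ENNReal.ofReal M := by
      apply setLIntegral_mono' measurableSet_Ioc
      intro θ _
      have := EReal.toENNReal_le_toENNReal (hMφ _ (hmem θ))
      simpa using this
    apply ne_top_of_le_ne_top _ this
    simp
    exact ENNReal.mul_ne_top ENNReal.ofReal_ne_top (ENNReal.mul_ne_top (by simp) (by simp))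
  unfold circleMean at hmain
  change φ z ≤ ((P / ENNReal.ofReal (2 * π) : ℝ≥0∞) : EReal) -
    ((Q / ENNReal.ofReal (2 * π) : ℝ≥0∞) : EReal) at hmain
  have hdiv0 : ENNReal.ofReal (2 * π) ≠ 0 := by simpa using Real.pi_pos
  have hQfin : Q ≠ ∞ := by
    intro hQt
    rw [hQt, ENNReal.top_div_of_ne_top ENNReal.ofReal_ne_top] at hmain
    simp only [EReal.coe_ennreal_top] at hmain
    rw [EReal.sub_top] at hmain
    exact hbot (le_bot_iff.1 hmain)
  have hP' : P = ENNReal.ofReal P.toReal := (ENNReal.ofReal_toReal hPfin).symm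
  have hQ' : Q = ENNReal.ofReal Q.toReal := (ENNReal.ofReal_toReal hQfin).symm
  have hIfin : I ≠ ∞ := by
    intro hIt
    rw [hIt, top_add] at hint
    have : ENNReal.ofReal M * ENNReal.ofReal (2 * π) + Q ≠ ∞ :=
      ENNReal.add_ne_top.2 ⟨ENNReal.mul_ne_top ENNReal.ofReal_ne_top ENNReal.ofReal_ne_top, hQfin⟩
    exact this hint.symm
  -- real form
  obtain ⟨r, hr⟩ : ∃ r : ℝ, φ z = (r : EReal) := by
    lift φ z to ℝ using ⟨htop, hbot⟩ with r hr
    exact ⟨r, rfl⟩
  have hreal : r ≤ P.toReal / (2 * π) - Q.toReal / (2 * π) := by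
    rw [hr] at hmain
    have e1 : P / ENNReal.ofReal (2 * π) = ENNReal.ofReal (P.toReal / (2 * π)) := by
      rw [ENNReal.ofReal_div_of_pos h2π, ← hP']
    have e2 : Q / ENNReal.ofReal (2 * π) = ENNReal.ofReal (Q.toReal / (2 * π)) := by
      rw [ENNReal.ofReal_div_of_pos h2π, ← hQ']
    rw [e1, e2, EReal.coe_ennreal_ofReal, EReal.coe_ennreal_ofReal,
      max_eq_left (by positivity), max_eq_left (by positivity), ← EReal.coe_sub] at hmain
    exact_mod_cast hmain
  have hintr : I.toReal + P.toReal = M * (2 * π) + Q.toReal := by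
    have := congrArg ENNReal.toReal hint
    rw [ENNReal.toReal_add hIfin hPfin, ENNReal.toReal_add
      (ENNReal.mul_ne_top ENNReal.ofReal_ne_top ENNReal.ofReal_ne_top) hQfin, ENNReal.toReal_mul,
      ENNReal.toReal_ofReal hM, ENNReal.toReal_ofReal h2π.le] at this
    exact this
  have hflip : flipFun K M φ z = ENNReal.ofReal (M - r) := by
    rw [flipFun_of_mem hzK, hr, ← EReal.coe_sub, EReal.real_coe_toENNReal]
  rw [hflip, ← ENNReal.ofReal_mul (by
    have := hMφ z hzK; rw [hr] at this; have : r ≤ M := by exact_mod_cast this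
    linarith)]
  rw [← ENNReal.ofReal_toReal hIfin]
  apply ENNReal.ofReal_le_ofReal
  have : r * (2 * π) ≤ P.toReal - Q.toReal := by
    rw [← sub_div, le_div_iff₀ h2π] at hreal
    exact hreal
  nlinarith

/-- Multiplication by a unit complex number as a real linear isometry. -/
noncomputable def rotIso (c : ℂ) (hc : ‖c‖ = 1) :
    EuclideanSpace ℂ (Fin n) ≃ₗᵢ[ℝ] EuclideanSpace ℂ (Fin n) where
  toFun w := c • w
  invFun w := c⁻¹ • w
  map_add' w w' := smul_add c w w'
  map_smul' t w := by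
    simp only [RingHom.id_apply]
    rw [smul_comm]
  left_inv w := by
    have : c ≠ 0 := by intro h; rw [h] at hc; simp at hc
    simp [smul_smul, inv_mul_cancel₀ this]
  right_inv w := by
    have : c ≠ 0 := by intro h; rw [h] at hc; simp at hc
    simp [smul_smul, mul_inv_cancel₀ this]
  norm_map' w := by
    change ‖c • w‖ = ‖w‖
    rw [norm_smul, hc, one_mul]

lemma measurePreserving_rot (c : ℂ) (hc : ‖c‖ = 1) :
    MeasurePreserving (fun w : EuclideanSpace ℂ (Fin n) => c • w) volume volume :=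
  (rotIso c hc).measurePreserving

/-- Ball form of the mean value inequality. -/
lemma ball_mean {Ω K : Set (EuclideanSpace ℂ (Fin n))} {φ : EuclideanSpace ℂ (Fin n) → EReal}
    (hφ : IsPSH Ω φ) (hK : IsClosed K) (hKΩ : K ⊆ Ω) {M : ℝ} (hM : 0 ≤ M) (hMφ : ∀ z ∈ K, φ z ≤ M)
    (x : EuclideanSpace ℂ (Fin n)) (ρ : ℝ) (hb : closedBall x ρ ⊆ K) :
    ∫⁻ z in closedBall x ρ, flipFun K M φ z ≤
      flipFun K M φ x * volume (closedBall x ρ) := by
  have hlsc := flipFun_lsc hK (M := M) (hφ.usc.mono hKΩ)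
  have hm : Measurable (flipFun K M φ) := hlsc.measurable
  -- translate to the origin
  have htrans : ∀ g : EuclideanSpace ℂ (Fin n) → ℝ≥0∞, Measurable g →
      ∫⁻ z in closedBall x ρ, g z = ∫⁻ w in closedBall (0 : EuclideanSpace ℂ (Fin n)) ρ,
        g (x + w) := by
    intro g hg
    have hmp : MeasurePreserving (fun w : EuclideanSpace ℂ (Fin n) => x + w) volume volume :=
      measurePreserving_add_left volume x
    rw [← hmp.setLIntegral_comp_preimage (s := closedBall x ρ) measurableSet_closedBall hg]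
    congr 2
    ext w
    simp [dist_eq_norm]
  have hrot : ∀ (c : ℂ), ‖c‖ = 1 → ∀ g : EuclideanSpace ℂ (Fin n) → ℝ≥0∞, Measurable g →
      ∫⁻ w in closedBall (0 : EuclideanSpace ℂ (Fin n)) ρ, g (c • w) =
        ∫⁻ w in closedBall (0 : EuclideanSpace ℂ (Fin n)) ρ, g w := by
    intro c hc g hg
    rw [← (measurePreserving_rot c hc).setLIntegral_comp_preimage
      (s := closedBall 0 ρ) measurableSet_closedBall hg]
    congr 2
    ext w
    simp [norm_smul, hc]
  have h2π : ENNReal.ofReal (2 * π) ≠ 0 := by simpa using Real.pi_pos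
  have key : (∫⁻ z in closedBall x ρ, flipFun K M φ z) * ENNReal.ofReal (2 * π) ≤
      (flipFun K M φ x * volume (closedBall x ρ)) * ENNReal.ofReal (2 * π) := by
    have e1 : (∫⁻ z in closedBall x ρ, flipFun K M φ z) * ENNReal.ofReal (2 * π) =
        ∫⁻ θ in Ioc 0 (2 * π), ∫⁻ w in closedBall (0 : EuclideanSpace ℂ (Fin n)) ρ,
          flipFun K M φ (x + Complex.exp ((θ : ℝ) * Complex.I) • w) := by
      have : ∀ θ : ℝ, ∫⁻ w in closedBall (0 : EuclideanSpace ℂ (Fin n)) ρ,
          flipFun K M φ (x + Complex.exp ((θ : ℝ) * Complex.I) • w) =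
          ∫⁻ z in closedBall x ρ, flipFun K M φ z := by
        intro θ
        rw [htrans _ hm, hrot _ (Complex.norm_exp_ofReal_mul_I θ)
          (fun w => flipFun K M φ (x + w)) (hm.comp (measurable_const_add x))]
      simp_rw [this]
      rw [setLIntegral_const, Real.volume_Ioc, sub_zero]
    rw [e1, lintegral_lintegral_swap]
    · have e2 : volume (closedBall x ρ) =
          volume (closedBall (0 : EuclideanSpace ℂ (Fin n)) ρ) :=
        Measure.addHaar_closedBall_center _ _ _
      have e3 : (flipFun K M φ x * volume (closedBall x ρ)) * ENNReal.ofReal (2 * π) =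
          ∫⁻ _w in closedBall (0 : EuclideanSpace ℂ (Fin n)) ρ,
            flipFun K M φ x * ENNReal.ofReal (2 * π) := by
        rw [setLIntegral_const, e2]; ring
      rw [e3]
      apply setLIntegral_mono' measurableSet_closedBall
      intro w hw
      apply disc_mean hφ hK hKΩ hM hMφ x w
      intro ζ hζ
      apply hb
      rw [mem_closedBall, dist_eq_norm]
      rw [mem_closedBall, dist_zero_right] at hw
      have : x + ζ • w - x = ζ • w := by abel
      rw [this, norm_smul]
      calc ‖ζ‖ * ‖w‖ ≤ 1 * ‖w‖ := by gcongr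
        _ ≤ ρ := by linarith
    · apply Measurable.aemeasurable
      apply hm.comp
      apply Continuous.measurable
      fun_prop
  exact (ENNReal.mul_le_mul_iff_left h2π ENNReal.ofReal_ne_top).1 key

lemma superMean_flipFun {Ω : Set (EuclideanSpace ℂ (Fin n))}
    {φ : EuclideanSpace ℂ (Fin n) → EReal}
    (hφ : IsPSH Ω φ) {x₀ : EuclideanSpace ℂ (Fin n)} {R : ℝ} (hKΩ : closedBall x₀ R ⊆ Ω) {M : ℝ}
    (hM : 0 ≤ M) (hMφ : ∀ z ∈ closedBall x₀ R, φ z ≤ M) :
    SuperMean volume (flipFun (closedBall x₀ R) M φ) (closedBall x₀ R) where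
  lsc := flipFun_lsc isClosed_closedBall (hφ.usc.mono hKΩ)
  top_off z hz := flipFun_of_not_mem hz
  mean x ρ _ hb := ball_mean hφ isClosed_closedBall hKΩ hM hMφ x ρ hb

/-- Upper bounds on closed balls. -/
lemma exists_upper_bound {Ω : Set (EuclideanSpace ℂ (Fin n))}
    {φ : EuclideanSpace ℂ (Fin n) → EReal}
    (hφ : IsPSH Ω φ) {x₀ : EuclideanSpace ℂ (Fin n)} {R : ℝ} (hR : 0 ≤ R)
    (hKΩ : closedBall x₀ R ⊆ Ω) :
    ∃ M : ℝ, 0 ≤ M ∧ ∀ z ∈ closedBall x₀ R, φ z ≤ M := by
  obtain ⟨x, hx, hmax⟩ := (hφ.usc.mono hKΩ).exists_isMaxOn ⟨x₀, mem_closedBall_self hR⟩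
    (isCompact_closedBall x₀ R)
  have htop := hφ.ne_top x (hKΩ hx)
  refine ⟨max (φ x).toReal 0, le_max_right _ _, fun z hz => ?_⟩
  have h1 : φ z ≤ φ x := hmax hz
  have h2 : φ x ≤ ((φ x).toReal : EReal) := EReal.le_coe_toReal htop
  refine h1.trans (h2.trans ?_)
  exact_mod_cast le_max_left _ _

/-- A plurisubharmonic function which is not identically `-∞` on a connected open set is not
identically `-∞` on any ball. -/
lemma exists_ne_bot {Ω : Set (EuclideanSpace ℂ (Fin n))} (hΩ : IsOpen Ω) (hc : IsPreconnected Ω)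
    {φ : EuclideanSpace ℂ (Fin n) → EReal} (hφ : IsPSH Ω φ) (hne : ∃ z ∈ Ω, φ z ≠ ⊥)
    {x : EuclideanSpace ℂ (Fin n)} (hx : x ∈ Ω) {r : ℝ} (hr : 0 < r) :
    ∃ z ∈ closedBall x r, z ∈ Ω ∧ φ z ≠ ⊥ := by
  by_contra hcon
  push Not at hcon
  set Z : Set (EuclideanSpace ℂ (Fin n)) := interior {z | z ∈ Ω ∧ φ z = ⊥} with hZ
  have hZopen : IsOpen Z := isOpen_interior
  have hxZ : x ∈ Z := by
    rw [hZ, mem_interior]
    refine ⟨ball x r ∩ Ω, ?_, isOpen_ball.inter hΩ, mem_ball_self hr, hx⟩
    intro z hz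
    exact ⟨hz.2, hcon z (ball_subset_closedBall hz.1) hz.2⟩
  have hsub : Ω ⊆ Z := by
    apply hc.subset_of_closure_inter_subset hZopen ⟨x, hx, hxZ⟩
    rintro x₀ ⟨hx₀c, hx₀⟩
    obtain ⟨R, hR, hRΩ⟩ := nhds_basis_closedBall.mem_iff.1 (hΩ.mem_nhds hx₀)
    obtain ⟨M, hM, hMφ⟩ := exists_upper_bound hφ hR.le hRΩ
    set r' := R / 4 with hr'
    have hr'0 : 0 < r' := by positivity
    obtain ⟨z₁, hz₁b, hz₁Z⟩ := mem_closure_iff_nhds.1 hx₀c (ball x₀ r') (ball_mem_nhds x₀ hr'0)
    have hopen : IsOpen (ball x₀ r' ∩ Z) := isOpen_ball.inter hZopen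
    have hpos : 0 < volume (ball x₀ r' ∩ Z) := hopen.measure_pos volume ⟨z₁, hz₁b, hz₁Z⟩
    have hbot : ball x₀ r' ⊆ {z | z ∈ Ω ∧ φ z = ⊥} := by
      intro y hy
      have hyΩ : y ∈ Ω := by
        apply hRΩ
        exact closedBall_subset_closedBall (by linarith) (ball_subset_closedBall hy)
      refine ⟨hyΩ, ?_⟩
      have hyd : dist y x₀ < r' := hy
      have hb : closedBall y (2 * r') ⊆ closedBall x₀ R := by
        apply closedBall_subset_closedBall'
        linarith
      have hmean := (superMean_flipFun hφ hRΩ hM hMφ).mean y (2 * r') (by positivity) hb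
      have hsub : ball x₀ r' ∩ Z ⊆ closedBall y (2 * r') := by
        rintro w ⟨hw, -⟩
        rw [mem_closedBall]
        have hwd : dist w x₀ < r' := hw
        have := dist_triangle_right w y x₀
        linarith
      have htop : ∫⁻ z in closedBall y (2 * r'), flipFun (closedBall x₀ R) M φ z = ∞ := by
        rw [← top_le_iff]
        calc (∞ : ℝ≥0∞) = ∞ * volume (ball x₀ r' ∩ Z) := (ENNReal.top_mul hpos.ne').symm
          _ = ∫⁻ z in ball x₀ r' ∩ Z, ∞ := by rw [setLIntegral_const]
          _ ≤ ∫⁻ z in ball x₀ r' ∩ Z, flipFun (closedBall x₀ R) M φ z := by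
              apply setLIntegral_mono' hopen.measurableSet
              intro w hw
              have hwK : w ∈ closedBall x₀ R := hb (hsub hw)
              rw [flipFun_of_mem hwK, (interior_subset hw.2).2]
              simp
          _ ≤ _ := lintegral_mono_set hsub
      rw [htop, top_le_iff] at hmean
      have hyK : y ∈ closedBall x₀ R := hb (mem_closedBall_self (by positivity))
      have hvy : flipFun (closedBall x₀ R) M φ y = ∞ := by
        by_contra hne'
        exact (ENNReal.mul_ne_top hne' measure_closedBall_lt_top.ne) hmean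
      rw [flipFun_of_mem hyK] at hvy
      by_contra hne'
      have htop' := hφ.ne_top y hyΩ
      lift φ y to ℝ using ⟨htop', hne'⟩ with t ht
      rw [← EReal.coe_sub, EReal.real_coe_toENNReal] at hvy
      exact ENNReal.ofReal_ne_top hvy
    exact mem_interior.2 ⟨ball x₀ r', hbot, isOpen_ball, mem_ball_self hr'0⟩
  obtain ⟨z, hz, hzne⟩ := hne
  exact hzne (interior_subset (hsub hz)).2

end Pool.Agent.Lib.MP_725b87_an
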