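import Pool.Agent.Lib.MP_725b87_an.Mean

/-!
The exceptional set of a plurisubharmonic function is Lebesgue null.
-/

open MeasureTheory Metric Set Filter Topology
open scoped ENNReal NNReal Real

namespace Pool.Agent.Lib.MP_725b87_an

variable {n : ℕ}

/-- Interior contact points carry a differential test from above. -/
lemma hasUpperTest_of_contact {Ω : Set (EuclideanSpace ℂ (Fin n))}
    {φ : EuclideanSpace ℂ (Fin n) → EReal} (hφ : IsPSH Ω φ)
    {x₀ : EuclideanSpace ℂ (Fin n)} {R : ℝ} (hR : 0 < R) (hKΩ : closedBall x₀ R ⊆ Ω)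
    {M a : ℝ} (ha : 0 ≤ a) (hMφ : ∀ z ∈ closedBall x₀ R, φ z ≤ M)
    {x y : EuclideanSpace ℂ (Fin n)} (hx : x ∈ closedBall x₀ (7 * R / 8))
    (hc : IsContact (flipFun (closedBall x₀ R) M φ) a x y) : HasUpperTest Ω φ x := by
  have hxb : x ∈ ball x₀ R := by
    rw [mem_ball]; rw [mem_closedBall] at hx; linarith
  have hxK : x ∈ closedBall x₀ R := ball_subset_closedBall hxb
  refine ⟨ball x₀ R, isOpen_ball, ball_subset_closedBall.trans hKΩ, hxb,
    fun w => a * ‖w - y‖ ^ 2, ?_, ?_⟩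
  · apply ContDiff.contDiffOn
    exact contDiff_const.mul ((contDiff_id.sub contDiff_const).norm_sq ℝ)
  · obtain ⟨hfin, hle⟩ := hc
    have hxbot : φ x ≠ ⊥ := by
      intro hbot
      apply hfin
      rw [flipFun_of_mem hxK, hbot]
      simp
    have hxtop := hφ.ne_top x (hKΩ hxK)
    obtain ⟨s, hs⟩ : ∃ s : ℝ, φ x = (s : EReal) := by
      lift φ x to ℝ using ⟨hxtop, hxbot⟩ with s hs
      exact ⟨s, rfl⟩
    have hsM : s ≤ M := by
      have := hMφ x hxK
      rw [hs] at this
      exact_mod_cast this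
    apply le_antisymm
    · exact le_iSup₂_of_le x hxb le_rfl
    · apply iSup₂_le
      intro w hw
      have hwK : w ∈ closedBall x₀ R := ball_subset_closedBall hw
      by_cases hwbot : φ w = ⊥
      · rw [hwbot]; simp
      have hwtop := hφ.ne_top w (hKΩ hwK)
      obtain ⟨t, ht⟩ : ∃ t : ℝ, φ w = (t : EReal) := by
        lift φ w to ℝ using ⟨hwtop, hwbot⟩ with t ht
        exact ⟨t, rfl⟩
      have htM : t ≤ M := by
        have := hMφ w hwK
        rw [ht] at this
        exact_mod_cast this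
      have h := hle w
      rw [flipFun_of_mem hxK, flipFun_of_mem hwK, hs, ht, ← EReal.coe_sub, ← EReal.coe_sub,
        EReal.real_coe_toENNReal, EReal.real_coe_toENNReal,
        ← ENNReal.ofReal_add (by linarith) (by positivity),
        ← ENNReal.ofReal_add (by linarith) (by positivity)] at h
      have h' := (ENNReal.ofReal_le_ofReal_iff (add_nonneg (by linarith) (by positivity))).1 h
      rw [hs, ht, ← EReal.coe_sub, ← EReal.coe_sub]
      have : t - a * ‖w - y‖ ^ 2 ≤ s - a * ‖x - y‖ ^ 2 := by linarith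
      exact_mod_cast this

/-- In every closed ball inside `Ω`, the exceptional set misses a fixed proportion. -/
lemma measure_exceptional_inter_le {Ω : Set (EuclideanSpace ℂ (Fin n))} (hΩ : IsOpen Ω)
    (hc : IsPreconnected Ω) {φ : EuclideanSpace ℂ (Fin n) → EReal} (hφ : IsPSH Ω φ)
    (hne : ∃ z ∈ Ω, φ z ≠ ⊥) {x₀ : EuclideanSpace ℂ (Fin n)} {R : ℝ} (hR : 0 < R)
    (hKΩ : closedBall x₀ R ⊆ Ω) :
    volume (exceptionalSet Ω φ ∩ closedBall x₀ R) +
      volume (closedBall x₀ R) /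
        ((48 * 8 ^ (Module.finrank ℝ (EuclideanSpace ℂ (Fin n))) : ℝ≥0∞) ^
          (Module.finrank ℝ (EuclideanSpace ℂ (Fin n)))) ≤ volume (closedBall x₀ R) := by
  set N := Module.finrank ℝ (EuclideanSpace ℂ (Fin n)) with hN
  obtain ⟨M, hM, hMφ⟩ := exists_upper_bound hφ hR.le hKΩ
  set v := flipFun (closedBall x₀ R) M φ with hv
  have hSM : SuperMean volume v (closedBall x₀ R) := superMean_flipFun hφ hKΩ hM hMφ
  have hx₀Ω : x₀ ∈ Ω := hKΩ (mem_closedBall_self hR.le)
  obtain ⟨x₁, hx₁, hx₁Ω, hx₁bot⟩ := exists_ne_bot hΩ hc hφ hne hx₀Ω (r := R / 4) (by positivity)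
  have hvx₁ : v x₁ ≠ ∞ := by
    have hx₁K : x₁ ∈ closedBall x₀ R := closedBall_subset_closedBall (by linarith) hx₁
    have htop := hφ.ne_top x₁ hx₁Ω
    rw [hv, flipFun_of_mem hx₁K]
    lift φ x₁ to ℝ using ⟨htop, hx₁bot⟩ with t ht
    rw [← EReal.coe_sub, EReal.real_coe_toENNReal]
    exact ENNReal.ofReal_ne_top
  set a : ℝ := (v x₁).toReal / (9 * R ^ 2 / 64) + 1 with ha
  have hvnn : 0 ≤ (v x₁).toReal := ENNReal.toReal_nonneg
  have ha0 : 0 < a := by positivity
  have haR : (v x₁).toReal ≤ a * (9 * R ^ 2 / 64) := by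
    rw [ha, add_mul, div_mul_cancel₀ _ (by positivity)]
    have : 0 ≤ 1 * (9 * R ^ 2 / 64) := by positivity
    linarith
  have hmeas := measure_contactSet hR hSM ha0 hx₁ hvx₁ haR
  have hcomp : IsCompact (contactSet v x₀ R a) := isCompact_contactSet hSM.lsc x₀ R a hvx₁
  have hAsub : contactSet v x₀ R a ⊆ closedBall x₀ R := fun x hx =>
    closedBall_subset_closedBall (by linarith) hx.1
  have hdisj : Disjoint (exceptionalSet Ω φ ∩ closedBall x₀ R) (contactSet v x₀ R a) := by
    rw [disjoint_left]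
    rintro x ⟨hxE, -⟩ ⟨hxb, y, -, hcon⟩
    exact hxE.2 (hasUpperTest_of_contact hφ hR hKΩ ha0.le hMφ hxb hcon)
  have hunion : volume (exceptionalSet Ω φ ∩ closedBall x₀ R) + volume (contactSet v x₀ R a) ≤
      volume (closedBall x₀ R) := by
    rw [← measure_union hdisj hcomp.isClosed.measurableSet]
    exact measure_mono (union_subset inter_subset_right hAsub)
  refine le_trans (add_le_add le_rfl ?_) hunion
  -- lower bound for the contact set
  have hquarter : volume (closedBall x₀ R) = (4 : ℝ≥0∞) ^ N * volume (closedBall x₀ (R / 4)) := by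
    rw [Measure.addHaar_closedBall _ _ hR.le, Measure.addHaar_closedBall _ _ (by positivity),
      ← mul_assoc]
    congr 1
    rw [← hN, div_pow, ENNReal.ofReal_div_of_pos (by positivity),
      ENNReal.ofReal_pow (by norm_num : (0:ℝ) ≤ 4)]
    rw [ENNReal.ofReal_ofNat, ENNReal.mul_div_cancel (by simp) (by simp)]
  apply ENNReal.div_le_of_le_mul
  rw [hquarter]
  calc (4 : ℝ≥0∞) ^ N * volume (closedBall x₀ (R / 4))
      ≤ (4 : ℝ≥0∞) ^ N * (((12 * 8 ^ N : ℝ≥0) : ℝ≥0∞) ^ N * volume (contactSet v x₀ R a)) := by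
        gcongr
    _ = volume (contactSet v x₀ R a) * (48 * 8 ^ N : ℝ≥0∞) ^ N := by
        push_cast
        rw [← mul_assoc, ← mul_pow, mul_comm]
        congr 2
        ring

/-- **Main theorem.** The exceptional set is Lebesgue null. -/
theorem volume_exceptionalSet {Ω : Set (EuclideanSpace ℂ (Fin n))} (hΩ : IsOpen Ω)
    (hc : IsPreconnected Ω) {φ : EuclideanSpace ℂ (Fin n) → EReal} (hφ : IsPSH Ω φ)
    (hne : ∃ z ∈ Ω, φ z ≠ ⊥) : volume (exceptionalSet Ω φ) = 0 := by
  set S := exceptionalSet Ω φ with hS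
  set κ : ℝ≥0∞ := ((48 * 8 ^ (Module.finrank ℝ (EuclideanSpace ℂ (Fin n))) : ℝ≥0∞) ^
          (Module.finrank ℝ (EuclideanSpace ℂ (Fin n)))) with hκ
  have hκtop : κ ≠ ∞ := by
    rw [hκ]
    apply ENNReal.pow_ne_top
    apply ENNReal.mul_ne_top (by simp)
    apply ENNReal.pow_ne_top (by simp)
  have hκ0 : κ⁻¹ ≠ 0 := ENNReal.inv_ne_zero.2 hκtop
  have hden := Besicovitch.ae_tendsto_measure_inter_div
    (volume : Measure (EuclideanSpace ℂ (Fin n))) S
  have hnot : ∀ x ∈ S, ¬ Tendsto (fun r => volume (S ∩ closedBall x r) / volume (closedBall x r))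
      (𝓝[>] 0) (𝓝 1) := by
    intro x hx htend
    have hxΩ : x ∈ Ω := hx.1
    obtain ⟨R, hR, hRΩ⟩ := nhds_basis_closedBall.mem_iff.1 (hΩ.mem_nhds hxΩ)
    have hev : ∀ᶠ r in 𝓝[>] (0 : ℝ), volume (S ∩ closedBall x r) / volume (closedBall x r) ≤
        1 - κ⁻¹ := by
      filter_upwards [Ioo_mem_nhdsGT hR] with r hr
      have hpos : volume (closedBall x r) ≠ 0 := (measure_closedBall_pos volume x hr.1).ne'
      have hfin : volume (closedBall x r) ≠ ∞ := measure_closedBall_lt_top.ne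
      have h1 := measure_exceptional_inter_le hΩ hc hφ hne hr.1
        ((closedBall_subset_closedBall hr.2.le).trans hRΩ)
      rw [← hκ, ← hS] at h1
      apply ENNReal.div_le_of_le_mul
      rw [ENNReal.sub_mul (fun _ _ => hfin), one_mul, mul_comm κ⁻¹, ← div_eq_mul_inv]
      exact ENNReal.le_sub_of_add_le_right
        (ne_top_of_le_ne_top hfin (le_trans le_add_self h1)) h1
    have hle := le_of_tendsto htend hev
    have hlt : (1 : ℝ≥0∞) - κ⁻¹ < 1 := ENNReal.sub_lt_self ENNReal.one_ne_top one_ne_zero hκ0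
    exact absurd hle (not_le.2 hlt)
  rw [ae_iff] at hden
  have hsub : S ⊆ {x | ¬ Tendsto (fun r => volume (S ∩ closedBall x r) /
      volume (closedBall x r)) (𝓝[>] 0) (𝓝 1)} := fun x hx => hnot x hx
  have h0 : (volume.restrict S) S = 0 := measure_mono_null hsub hden
  rwa [Measure.restrict_apply_self] at h0

end Pool.Agent.Lib.MP_725b87_an
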